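import Pool.Agent.Lib.TA.LocM

/-!
# Module TA.Adj: adjoining a transcendental parameter

PROOF of `par_adjoin`.  `A` is a regular local ring (`hA.reg`).  Let `S = Localization.AtPrime (Q0 A)` and
`φ : S →+* F` from `exists_locMap`.  `φ` is injective: an element of `S` is `f / q`
(`IsLocalization.exists_mk'_eq` / `IsLocalization.mk'_surjective`), and `φ (f / q) = 0` gives `f(Y) = 0`
(multiply by `algebraMap q`), so `f = 0` by `htr`.  So `S` is isomorphic to `A' = φ.range =
locV (ball F) (closure (A ∪ {Y}))`, hence `A'` is regular (`regular_Q0`, `IsRegularLocalRing.of_ringEquiv`)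
of dimension `dim A + 1 = (0 + r) + 1` (`dim_Q0`, `ringKrullDim_eq_of_ringEquiv`; `hA.dim`; the casts
`ℕ → ℕ∞ → WithBot ℕ∞` need `push_cast`/`norm_cast`).
`A' ≤ ball`: `locV_le` and `Subring.closure_le`; `locV A' = A'`: `locV_locV`.  `mem`, `gmem`:
`le_locV`, `Subring.subset_closure`.
GEN: let `z ∈ A'`, `‖z‖ < 1`: `z * b = a` with `a, b ∈ closure (A ∪ {Y})`, `‖b‖ = 1`, so `‖a‖ < 1`.
`a = f(Y)` (`mem_closure_adj_iff`), `a = f.coeff 0 + Y * g` (`exists_eval_eq`) with `g ∈ closure`,
`‖g‖ ≤ 1`; so `‖f.coeff 0‖ < 1`, and `hA.gen` gives `f.coeff 0 = ∑ c i * u i` (the sum over the empty set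
`gs = ∅` is zero).  Divide by `b`: `b⁻¹ ∈ A'`.  Take `d _ = g * b⁻¹`.
-/

open IsLocalRing Polynomial

namespace TA
open Pool.Agent.Lib.MP_3029eb_ag Pool.Agent.Lib.MP_3029eb_ag.Abh

variable {F : Type} [NormedField F] [IsUltrametricDist F] {A : Subring F} {r : ℕ} {u : Fin r → F}

theorem par_adjoin (hA : Par A u ∅) {Y : F} (hY : ‖Y‖ < 1)
    (htr : ∀ f : A[X], f ≠ 0 → f.eval₂ A.subtype Y ≠ 0) :
    Par (locV (ball F) (Subring.closure ((A : Set F) ∪ {Y}))) u {Y} := by
  have hreg : IsRegularLocalRing A := hA.reg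
  obtain ⟨φ, hφ, hrange⟩ := exists_locMap A hA.le hA.loc hY
  have hinj : Function.Injective φ := by
    rw [injective_iff_map_eq_zero]
    intro x hx
    obtain ⟨⟨f, q⟩, hfq⟩ := IsLocalization.surj (Q0 A).primeCompl x
    simp only at hfq
    have h1 : f.eval₂ A.subtype Y = 0 := by
      rw [← hφ, ← hfq, map_mul, hx, zero_mul]
    have h2 : f = 0 := by
      by_contra hne
      exact htr f hne h1
    rw [h2, map_zero] at hfq
    have hq : IsUnit (algebraMap A[X] (Localization.AtPrime (Q0 A)) (q : A[X])) :=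
      IsLocalization.map_units _ q
    exact (hq.mul_left_eq_zero).1 hfq
  have hle' : Subring.closure ((A : Set F) ∪ {Y}) ≤ (ball F).toSubring := by
    rw [Subring.closure_le, Set.union_subset_iff, Set.singleton_subset_iff]
    exact ⟨hA.le, hY.le⟩
  have hAc : A ≤ Subring.closure ((A : Set F) ∪ {Y}) := fun z hz =>
    Subring.subset_closure (Or.inl hz)
  have hYc : Y ∈ Subring.closure ((A : Set F) ∪ {Y}) := Subring.subset_closure (Or.inr rfl)
  let e : Localization.AtPrime (Q0 A) ≃+* locV (ball F) (Subring.closure ((A : Set F) ∪ {Y})) :=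
    (RingEquiv.ofBijective φ.rangeRestrict
      ⟨fun a b h => hinj (congrArg Subtype.val h), φ.rangeRestrict_surjective⟩).trans
      (RingEquiv.subringCongr hrange)
  have hregQ : IsRegularLocalRing (Localization.AtPrime (Q0 A)) := regular_Q0
  refine ⟨locV_le _ hle', locV_locV _ _, hA.ind, fun i => le_locV _ _ (hAc (hA.mem i)), ?_, ?_, ?_,
    IsRegularLocalRing.of_ringEquiv e, ?_⟩
  · intro y hy
    rw [Finset.mem_singleton] at hy
    rw [hy]
    exact le_locV _ _ hYc
  · intro y hy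
    rw [Finset.mem_singleton] at hy
    rw [hy]
    exact hY
  · rintro z ⟨a, ha, b, hb, hb1, hz⟩ hz1
    rw [val_eq_one_iff] at hb1
    have hb0 : b ≠ 0 := by
      rintro rfl
      rw [norm_zero] at hb1
      exact zero_ne_one hb1
    have ha1 : ‖a‖ < 1 := by rw [← hz, norm_mul, hb1, mul_one]; exact hz1
    obtain ⟨f, hf⟩ := (mem_closure_adj_iff A Y a).1 ha
    obtain ⟨g, hg1, hg, hfg⟩ := exists_eval_eq hA.le hY f
    have hc0 : ‖((f.coeff 0 : A) : F)‖ < 1 := by
      have h1 : ((f.coeff 0 : A) : F) = a - Y * g := by rw [← hf, hfg]; ring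
      rw [h1, sub_eq_add_neg]
      refine (IsUltrametricDist.norm_add_le_max _ _).trans_lt (max_lt ha1 ?_)
      rw [norm_neg, norm_mul]
      exact mul_lt_one_of_nonneg_of_lt_one_left (norm_nonneg _) hY hg1
    obtain ⟨c, d, hc, _, hcu⟩ := hA.gen _ (f.coeff 0).2 hc0
    rw [Finset.sum_empty, add_zero] at hcu
    have hbi : b⁻¹ ∈ locV (ball F) (Subring.closure ((A : Set F) ∪ {Y})) :=
      ⟨1, one_mem _, b, hb, (val_eq_one_iff b).2 hb1, inv_mul_cancel₀ hb0⟩
    refine ⟨fun i => b⁻¹ * c i, fun _ => b⁻¹ * g, fun i => mul_mem hbi (le_locV _ _ (hAc (hc i))),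
      fun _ => mul_mem hbi (le_locV _ _ hg), ?_⟩
    rw [Finset.sum_singleton]
    have h2 : z = b⁻¹ * a := by rw [← hz]; field_simp
    rw [h2, ← hf, hfg, hcu, mul_add, Finset.mul_sum]
    congr 1
    · exact Finset.sum_congr rfl fun i _ => by ring
    · ring
  · rw [← ringKrullDim_eq_of_ringEquiv e, dim_Q0, hA.dim, Finset.card_empty, Finset.card_singleton]
    push_cast
    rw [zero_add, add_comm]

end TA
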