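import Pool.Agent.Lib.TA.Reg

/-!
# Module TA.Base: the base chart

`κ` is a trivially normed subfield, `e` an element of norm `≤ 1`, `P` a monic polynomial over `κ` such that
`‖g(e)‖ = 1` for every nonzero `g` over `κ` of degree less than the degree of `P` (so the residue of `e` has
minimal polynomial `P`), and `P(e)` is one of the parameters `w i`.

PROOF of `par_base`.  Let `B = gring κ ({e} ∪ range w)`, `A = chart κ (…) = locV (ball F) B`.  `A` is
noetherian (`noeth_chart`, the set is finite), contained in the ball (`chart_le_ball`), `loc_chart`.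
By `par_of_gen` only the generation of the maximal ideal is to be shown.
STEP 1: every `b ∈ B` is `g(e) + ∑ i, c i * w i` with `g ∈ F[X]`, `HR.PolyIn κ g`, `c i ∈ B`:
`Subring.closure_induction` (constants, `X` for `e`, `Pi.single` for `w i`; for the product of
`g(e) + ∑ c i w i` and `g'(e) + ∑ c' i w i` the coefficients are
`c i * (g'(e) + ∑ c' j w j) + g(e) * c' i`; `g(e) ∈ B` because `PolyIn κ g`).
STEP 2: let `z ∈ A`, `‖z‖ < 1`: `z * b = a`, `a, b ∈ B`, `‖b‖ = 1`, so `‖a‖ < 1`.  Write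
`a = g(e) + ∑ c i w i`; `‖∑ c i w i‖ < 1`, so `‖g(e)‖ < 1`.  Division by the monic `P`:
`g = P * q + ρ` with `q, ρ` over `κ` (`Polynomial.divByMonic`, `modByMonic`; the coefficients lie in `κ`: work
in `κ[X]`, lifting `g` and `P` (`Polynomial.lifts`, `Polynomial.map_divByMonic`,
`Polynomial.map_modByMonic`), `ρ = 0` or `natDegree ρ < natDegree P`.  If `P.natDegree = 0` then `P = 1`, and
`‖P(e)‖ = 1`, against `‖w i₀‖ < 1`).  If `ρ ≠ 0` then `‖ρ(e)‖ = 1` by `hmin`; but
`‖P(e) q(e)‖ ≤ ‖P(e)‖ = ‖w i₀‖ < 1` and `‖g(e)‖ < 1`: a contradiction.  So `g(e) = q(e) * w i₀` and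
`a = ∑ i (c i + (if i = i₀ then q(e) else 0)) * w i`; divide by `b` (`b⁻¹ ∈ A`).
-/

open IsLocalRing Polynomial

namespace TA
open Pool.Agent.Lib.MP_3029eb_ag Pool.Agent.Lib.MP_3029eb_ag.Abh

variable {F : Type} [NormedField F] [IsUltrametricDist F]

private lemma base_eval_mem {κ : Subfield F} {B : Subring F} (hκ : (κ : Set F) ⊆ B) {e : F}
    (he : e ∈ B) {g : F[X]} (hg : HR.PolyIn κ g) : g.eval e ∈ B := by
  rw [eval_eq_sum_range]
  exact sum_mem fun n _ => mul_mem (hκ (hg n)) (pow_mem he n)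

private lemma base_sum_lt {ι : Type} (s : Finset ι) (f : ι → F) (h : ∀ i ∈ s, ‖f i‖ < 1) :
    ‖∑ i ∈ s, f i‖ < 1 := by
  classical
  induction s using Finset.induction_on with
  | empty => rw [Finset.sum_empty, norm_zero]; exact one_pos
  | insert i s hi ih =>
    rw [Finset.sum_insert hi]
    exact lt_of_le_of_lt (IsUltrametricDist.norm_add_le_max _ _)
      (max_lt (h i (Finset.mem_insert_self _ _))
        (ih fun j hj => h j (Finset.mem_insert_of_mem hj)))

private lemma base_step1 {κ : Subfield F} {e : F} {r : ℕ} {w : Fin r → F} {b : F}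
    (hb : b ∈ gring κ ({e} ∪ Set.range w)) :
    ∃ (g : F[X]) (c : Fin r → F), HR.PolyIn κ g ∧
      (∀ i, c i ∈ gring κ ({e} ∪ Set.range w)) ∧ b = g.eval e + ∑ i, c i * w i := by
  classical
  have hκ : (κ : Set F) ⊆ gring κ ({e} ∪ Set.range w) := le_gring _ _
  have he : e ∈ gring κ ({e} ∪ Set.range w) := subset_gring _ _ (Or.inl rfl)
  have hw : ∀ i, w i ∈ gring κ ({e} ∪ Set.range w) := fun i =>
    subset_gring _ _ (Or.inr ⟨i, rfl⟩)
  unfold gring at hb
  induction hb using Subring.closure_induction with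
  | mem x hx =>
    rcases hx with hx | hx | ⟨i, rfl⟩
    · refine ⟨C x, 0, fun n => ?_, fun i => zero_mem _, by simp⟩
      rw [coeff_C]
      split_ifs
      · exact hx
      · exact zero_mem _
    · rw [Set.mem_singleton_iff] at hx
      refine ⟨X, 0, fun n => ?_, fun i => zero_mem _, by simp [hx]⟩
      rw [coeff_X]
      split_ifs
      · exact one_mem _
      · exact zero_mem _
    · refine ⟨0, Pi.single i 1, fun n => by rw [coeff_zero]; exact zero_mem _, fun j => ?_, ?_⟩
      · by_cases h : j = i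
        · rw [h, Pi.single_eq_same]; exact one_mem _
        · rw [Pi.single_eq_of_ne h]; exact zero_mem _
      · rw [eval_zero, zero_add, Finset.sum_eq_single i]
        · rw [Pi.single_eq_same, one_mul]
        · intro j _ hj
          rw [Pi.single_eq_of_ne hj, zero_mul]
        · intro h
          exact absurd (Finset.mem_univ i) h
  | zero =>
    exact ⟨0, 0, fun n => by rw [coeff_zero]; exact zero_mem _, fun i => zero_mem _, by simp⟩
  | one =>
    refine ⟨1, 0, fun n => ?_, fun i => zero_mem _, by simp⟩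
    rw [coeff_one]
    split_ifs
    · exact one_mem _
    · exact zero_mem _
  | add x x' _ _ hx hx' =>
    obtain ⟨g, c, hg, hc, rfl⟩ := hx
    obtain ⟨g', c', hg', hc', rfl⟩ := hx'
    refine ⟨g + g', c + c', fun n => ?_, fun i => add_mem (hc i) (hc' i), ?_⟩
    · rw [coeff_add]; exact add_mem (hg n) (hg' n)
    · rw [eval_add]
      simp only [Pi.add_apply, add_mul, Finset.sum_add_distrib]
      ring
  | neg x _ hx =>
    obtain ⟨g, c, hg, hc, rfl⟩ := hx
    refine ⟨-g, -c, fun n => ?_, fun i => neg_mem (hc i), ?_⟩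
    · rw [coeff_neg]; exact neg_mem (hg n)
    · rw [eval_neg]
      simp only [Pi.neg_apply, neg_mul, Finset.sum_neg_distrib]
      ring
  | mul x x' _ hx1 hx hx' =>
    obtain ⟨g, c, hg, hc, hgc⟩ := hx
    obtain ⟨g', c', hg', hc', hgc'⟩ := hx'
    refine ⟨g * g', fun i => c i * x' + g.eval e * c' i, fun n => ?_, fun i => ?_, ?_⟩
    · rw [coeff_mul]
      exact sum_mem fun m _ => mul_mem (hg _) (hg' _)
    · exact add_mem (mul_mem (hc i) hx1)
        (mul_mem (base_eval_mem hκ he hg) (hc' i))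
    · rw [eval_mul]
      have h1 : ∑ i, (c i * x' + g.eval e * c' i) * w i =
          (∑ i, c i * w i) * x' + g.eval e * ∑ i, c' i * w i := by
        rw [Finset.sum_mul, Finset.mul_sum, ← Finset.sum_add_distrib]
        exact Finset.sum_congr rfl fun i _ => by ring
      rw [h1]
      have h2 : ∑ i, c' i * w i = x' - g'.eval e := by rw [hgc']; ring
      rw [h2, hgc]
      ring

theorem par_base {κ : Subfield F} (htriv : ∀ x ∈ κ, x ≠ 0 → ‖x‖ = 1) {e : F} (he : ‖e‖ ≤ 1)
    {P : F[X]} (hP : HR.PolyIn κ P) (hmon : P.Monic)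
    (hmin : ∀ g : F[X], HR.PolyIn κ g → g ≠ 0 → g.natDegree < P.natDegree → ‖g.eval e‖ = 1)
    {r : ℕ} {w : Fin r → F} (hw : Indep w) {i₀ : Fin r} (hi₀ : w i₀ = P.eval e) :
    Par (chart κ ({e} ∪ Set.range w)) w ∅ := by
  classical
  have hset : ({e} ∪ Set.range w : Set F) = (({e} ∪ Finset.univ.image w : Finset F) : Set F) := by
    push_cast
    rw [Set.image_univ]
  have hnoeth : IsNoetherianRing (chart κ ({e} ∪ Set.range w)) := by
    rw [hset]; exact noeth_chart κ _
  have hsub : ∀ x ∈ ({e} ∪ Set.range w : Set F), ‖x‖ ≤ 1 := by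
    rintro x (hx | ⟨i, rfl⟩)
    · rw [Set.mem_singleton_iff] at hx; rw [hx]; exact he
    · exact (hw.lt i).le
  have hle := chart_le_ball htriv hsub
  have hκ : (κ : Set F) ⊆ gring κ ({e} ∪ Set.range w) := le_gring _ _
  have heB : e ∈ gring κ ({e} ∪ Set.range w) := subset_gring _ _ (Or.inl rfl)
  have hwB : ∀ i, w i ∈ gring κ ({e} ∪ Set.range w) := fun i =>
    subset_gring _ _ (Or.inr ⟨i, rfl⟩)
  have hBball : ∀ z ∈ gring κ ({e} ∪ Set.range w), ‖z‖ ≤ 1 := fun z hz =>
    gring_le_ball htriv hsub hz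
  refine par_of_gen hle (loc_chart _ _) hw (fun i => gring_le_chart _ _ (hwB i)) ?_
  rintro z ⟨a, ha, b, hb, hb1, hz⟩ hz1
  rw [val_eq_one_iff] at hb1
  have hb0 : b ≠ 0 := by rw [← norm_ne_zero_iff, hb1]; exact one_ne_zero
  have hbinv : b⁻¹ ∈ chart κ ({e} ∪ Set.range w) :=
    ⟨1, one_mem _, b, hb, (val_eq_one_iff b).2 hb1, inv_mul_cancel₀ hb0⟩
  have ha1 : ‖a‖ < 1 := by rw [← hz, norm_mul, hb1, mul_one]; exact hz1
  obtain ⟨g, c, hg, hc, hgc⟩ := base_step1 ha
  have hcw : ‖∑ i, c i * w i‖ < 1 := base_sum_lt _ _ fun i _ => by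
    rw [norm_mul]
    calc ‖c i‖ * ‖w i‖ ≤ 1 * ‖w i‖ := mul_le_mul_of_nonneg_right (hBball _ (hc i)) (norm_nonneg _)
      _ < 1 := by rw [one_mul]; exact hw.lt i
  have hge : ‖g.eval e‖ < 1 := by
    have : g.eval e = a + -∑ i, c i * w i := by rw [hgc]; ring
    rw [this]
    exact lt_of_le_of_lt (IsUltrametricDist.norm_add_le_max _ _)
      (max_lt ha1 (by rw [norm_neg]; exact hcw))
  -- division with remainder
  have hgl : g ∈ lifts κ.subtype := by
    rw [lifts_iff_coeff_lifts]
    exact fun n => ⟨⟨g.coeff n, hg n⟩, rfl⟩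
  have hPl : P ∈ lifts κ.subtype := by
    rw [lifts_iff_coeff_lifts]
    exact fun n => ⟨⟨P.coeff n, hP n⟩, rfl⟩
  obtain ⟨g0, hg0⟩ := hgl
  obtain ⟨P0, hP0, hP0d, hP0m⟩ := lifts_and_degree_eq_and_monic hPl hmon
  have hdiv : g0 %ₘ P0 + P0 * (g0 /ₘ P0) = g0 := modByMonic_add_div g0 P0
  set ρ := (g0 %ₘ P0).map κ.subtype with hρ
  set q := (g0 /ₘ P0).map κ.subtype with hq
  have hρin : HR.PolyIn κ ρ := fun n => by rw [hρ, coeff_map]; exact Subtype.prop _
  have hqin : HR.PolyIn κ q := fun n => by rw [hq, coeff_map]; exact Subtype.prop _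
  have hgρ : g = ρ + P * q := by
    have h1 : g0.map κ.subtype = g := hg0
    rw [← h1, hρ, hq, ← hP0, ← Polynomial.map_mul, ← Polynomial.map_add, hdiv]
  have hPe : ‖P.eval e‖ < 1 := by rw [← hi₀]; exact hw.lt i₀
  have hqB : q.eval e ∈ gring κ ({e} ∪ Set.range w) := base_eval_mem hκ heB hqin
  have hρ0 : ρ = 0 := by
    by_contra hne
    have hne0 : g0 %ₘ P0 ≠ 0 := by
      intro h
      rw [hρ, h, Polynomial.map_zero] at hne
      exact hne rfl
    have hd : (g0 %ₘ P0).degree < P0.degree := degree_modByMonic_lt _ hP0m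
    have hinj : Function.Injective κ.subtype := Subtype.val_injective
    have hd2 : ρ.degree < P.degree := by
      rw [hρ, degree_map_eq_of_injective hinj, ← hP0d]
      exact hd
    have h1 := hmin ρ hρin hne (natDegree_lt_natDegree hne hd2)
    have h2 : ρ.eval e = g.eval e + -(P.eval e * q.eval e) := by
      rw [hgρ, eval_add, eval_mul]; ring
    have h3 : ‖P.eval e * q.eval e‖ < 1 := by
      rw [norm_mul]
      calc ‖P.eval e‖ * ‖q.eval e‖ ≤ ‖P.eval e‖ * 1 :=
            mul_le_mul_of_nonneg_left (hBball _ hqB) (norm_nonneg _)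
        _ < 1 := by rw [mul_one]; exact hPe
    have h4 : ‖ρ.eval e‖ < 1 := by
      rw [h2]
      exact lt_of_le_of_lt (IsUltrametricDist.norm_add_le_max _ _)
        (max_lt hge (by rw [norm_neg]; exact h3))
    rw [h1] at h4
    exact lt_irrefl _ h4
  have hgq : g.eval e = q.eval e * w i₀ := by
    rw [hgρ, hρ0, zero_add, eval_mul, hi₀, mul_comm]
  refine ⟨fun i => b⁻¹ * (c i + if i = i₀ then q.eval e else 0), fun i => ?_, ?_⟩
  · refine mul_mem hbinv (gring_le_chart _ _ (add_mem (hc i) ?_))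
    split_ifs
    · exact hqB
    · exact zero_mem _
  · have h1 : z = b⁻¹ * a := by rw [← hz]; field_simp
    rw [h1, hgc, hgq]
    have h2 : ∑ i, b⁻¹ * (c i + if i = i₀ then q.eval e else 0) * w i =
        b⁻¹ * (∑ i, c i * w i + ∑ i, (if i = i₀ then q.eval e * w i else 0)) := by
      rw [← Finset.sum_add_distrib, Finset.mul_sum]
      refine Finset.sum_congr rfl fun i _ => ?_
      split_ifs <;> ring
    rw [h2, Finset.sum_ite_eq']
    simp only [Finset.mem_univ, if_true]
    ring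

end TA
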