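import Pool.Agent.Lib.TA.LocM

/-!
# Module TA.Et: adjoining a simple root

PROOF of `par_etale`.  `A` is a regular local ring.  Let `S = Localization.AtPrime (Q0 A)`, a regular local
ring with `dim S = dim A + 1` (`regular_Q0`, `dim_Q0`), `φ : S →+* F` from `exists_locMap` for the point `s`,
`A' = φ.range = locV (ball F) (closure (A ∪ {s}))`.
Let `G'` in `A[X]` be the polynomial with `G'.map A.subtype = G` (`Polynomial.toSubring`, or
`Polynomial.lifts`).  `G(s) = 0` gives `G.coeff 0 = - s * (…)`, so `‖G.coeff 0‖ < 1` (`exists_eval_eq` for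
`G'`); `G'.coeff 1` is a unit of `A` (`isUnit_iff_of_loc`).  Put `g = algebraMap G' : S`: it lies in the
maximal ideal (`G' ∈ Q0 A`), not in its square (`notMem_sq`), and `φ g = G(s) = 0`.
By `RB_quot_regular` (file RB.lean, with `c = 1`, `f = fun _ => g`, `RB_single`) the ring
`B = S ⧸ span {g}` is regular local with `dim S = dim B + 1`, so `dim B = dim A` (cancel `+ 1` in
`WithBot ℕ∞`: the dimensions are natural numbers, `RB_dim_nat`), and `B` is a domain
(`isDomain_of_isRegularLocalRing`).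
`φ` induces `ψ : B →+* F`, and `ψ` is INJECTIVE: let `P = ker ψ`.  The composition `A → A[X] → S → B → F` is
the inclusion of `A`, in particular `A → B` is injective.  Suppose `P ≠ ⊥`.  An element of `B` is the class of
`f / q` with `f, q` in `A[X]`, `q ∉ Q0 A`, and if it is a nonzero element of `P`, then the class `x` of `f` is
also a nonzero element of `P` (multiply by the unit `q`).  The class `X'` of `X` in `B` is algebraic over `A`
(it is a root of `G'`, which is not zero because its coefficient of index 1 is a unit), so `x = f(X')` is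
algebraic over `A` (`IsAlgebraic` is closed under `+`, `*` over a domain; `B` is a domain; give `B` the
algebra structure over `A` by composition with `Polynomial.C`, it is the instance coming from
`Localization` and `Quotient` if available).  By `Ideal.comap_ne_bot_of_algebraic_mem` there is a nonzero
`a` in `A` with image in `P`, that is with `a = 0` in `F`: a contradiction.
So `B ≅ A'`, and `A'` is regular of dimension `dim A = gs.card + r`.
`A' ≤ ball`, `loc`, `mem`, `gmem`, `glt`: as usual.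
GEN: `z ∈ A'` with `‖z‖ < 1`: `z * b = a`, `‖b‖ = 1`, `a = f(s) = f.coeff 0 + s * g₁`, `‖f.coeff 0‖ < 1`
(`exists_eval_eq`, `g₁ ∈ closure`).  And `s` itself: `0 = G(s) = G.coeff 0 + s * h` with `h` in the
closure and `‖h‖ = 1`, because `G = C (G.coeff 0) + X * (C (G.coeff 1) + X * G₂)`, so `h = G.coeff 1 + s *
G₂(s)`.  So `s = - (G.coeff 0) * h⁻¹` with `h⁻¹ ∈ A'`, and `z = (f.coeff 0 - G.coeff 0 * h⁻¹ * g₁) * b⁻¹`.
Apply `hA.gen` to `f.coeff 0` and to `G.coeff 0`, and multiply the coefficients.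
-/

open IsLocalRing Polynomial

namespace TA
open Pool.Agent.Lib.MP_3029eb_ag Pool.Agent.Lib.MP_3029eb_ag.Abh

variable {F : Type} [NormedField F] [IsUltrametricDist F] {A : Subring F} {r : ℕ} {u : Fin r → F}
  {gs : Finset F}

/-- A ring homomorphism from a domain `B`, whose elements are up to units polynomials in an element
algebraic over `A`, is injective if it is injective on `A`. -/
private theorem et_injective {A B K : Type} [CommRing A] [IsDomain A] [CommRing B] [IsDomain B]
    [CommRing K] (ι : A →+* B) (x : B) (G : A[X]) (hG0 : G ≠ 0) (hGx : G.eval₂ ι x = 0)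
    (hB : ∀ b : B, ∃ q : B, IsUnit q ∧ ∃ f : A[X], b * q = f.eval₂ ι x) (ψ : B →+* K)
    (hψ : ∀ a : A, ψ (ι a) = 0 → a = 0) : Function.Injective ψ := by
  let _ : Algebra A B := ι.toAlgebra
  have hal : (algebraMap A B) = ι := rfl
  rw [injective_iff_map_eq_zero]
  intro b hb
  by_contra hb0
  obtain ⟨q, hq, f, hf⟩ := hB b
  have hx : IsAlgebraic A x := ⟨G, hG0, by rw [Polynomial.aeval_def, hal, hGx]⟩
  have hfx : IsAlgebraic A (b * q) := by
    have h1 : Polynomial.aeval x f ∈ Subalgebra.algebraicClosure A B := by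
      have h2 : Algebra.adjoin A {x} ≤ Subalgebra.algebraicClosure A B :=
        Algebra.adjoin_le (Set.singleton_subset_iff.2 hx)
      exact h2 (Polynomial.aeval_mem_adjoin_singleton A x)
    rw [hf, ← hal, ← Polynomial.aeval_def]
    exact h1
  have hne : b * q ≠ 0 := mul_ne_zero hb0 hq.ne_zero
  have hmem : b * q ∈ RingHom.ker ψ := by
    rw [RingHom.mem_ker, map_mul, hb, zero_mul]
  have h3 := Ideal.comap_ne_bot_of_algebraic_mem (R := A) hne hmem hfx
  apply h3
  rw [eq_bot_iff]
  intro a ha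
  rw [Ideal.mem_comap, RingHom.mem_ker, hal] at ha
  rw [Ideal.mem_bot]
  exact hψ a ha

theorem par_etale (hA : Par A u gs) {s : F} (hs : ‖s‖ < 1) {G : F[X]} (hG : ∀ n, G.coeff n ∈ A)
    (hG1 : ‖G.coeff 1‖ = 1) (hGs : G.eval s = 0) :
    Par (locV (ball F) (Subring.closure ((A : Set F) ∪ {s}))) u gs := by
  classical
  have hreg : IsRegularLocalRing A := hA.reg
  have hS : IsRegularLocalRing (Localization.AtPrime (Q0 A)) := regular_Q0
  have hdS : ringKrullDim (Localization.AtPrime (Q0 A)) = ringKrullDim A + 1 := dim_Q0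
  obtain ⟨φ, hφ, hφr⟩ := exists_locMap A hA.le hA.loc hs
  -- the polynomial over `A`
  have hco : ((G.coeffs : Finset F) : Set F) ⊆ A := by
    intro c hc
    rw [Finset.mem_coe, Polynomial.mem_coeffs_iff] at hc
    obtain ⟨n, _, rfl⟩ := hc
    exact hG n
  obtain ⟨G', hG'⟩ : ∃ G' : A[X], G'.map A.subtype = G :=
    ⟨G.toSubring A hco, Polynomial.map_toSubring _ _ _⟩
  have hcoef : ∀ n, ((G'.coeff n : A) : F) = G.coeff n := by
    intro n
    rw [← hG', Polynomial.coeff_map]
    rfl
  have hGs' : G'.eval₂ A.subtype s = 0 := by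
    rw [Polynomial.eval₂_eq_eval_map, hG', hGs]
  have hclo : Subring.closure ((A : Set F) ∪ {s}) ≤ (ball F).toSubring := by
    rw [Subring.closure_le, Set.union_subset_iff]
    refine ⟨fun x hx => hA.le hx, ?_⟩
    rw [Set.singleton_subset_iff]
    exact hs.le
  have hAclo : A ≤ Subring.closure ((A : Set F) ∪ {s}) :=
    fun x hx => Subring.subset_closure (Or.inl hx)
  have hsclo : s ∈ Subring.closure ((A : Set F) ∪ {s}) :=
    Subring.subset_closure (Or.inr rfl)
  have hlelocV := le_locV (ball F) (Subring.closure ((A : Set F) ∪ {s}))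
  have hc0 : ‖G.coeff 0‖ < 1 := by
    obtain ⟨g, hg1, _, hg⟩ := exists_eval_eq hA.le hs G'
    rw [hGs', hcoef] at hg
    have h1 : G.coeff 0 = -(s * g) := by linear_combination -hg
    rw [h1, norm_neg, norm_mul]
    calc ‖s‖ * ‖g‖ ≤ ‖s‖ * 1 := mul_le_mul_of_nonneg_left hg1 (norm_nonneg _)
      _ < 1 := by rw [mul_one]; exact hs
  have h0 : G'.coeff 0 ∈ maximalIdeal A := by
    rw [mem_max_iff hA.le hA.loc, hcoef]
    exact hc0
  have h1 : IsUnit (G'.coeff 1) := by
    rw [isUnit_iff_of_loc hA.le hA.loc, hcoef]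
    exact hG1
  have hG'0 : G' ≠ 0 := by
    intro h
    rw [h, Polynomial.coeff_zero] at h1
    exact not_isUnit_zero h1
  -- the quotient
  set g : Localization.AtPrime (Q0 A) := algebraMap A[X] (Localization.AtPrime (Q0 A)) G' with hg
  have hgmem : g ∈ maximalIdeal (Localization.AtPrime (Q0 A)) := by
    rw [hg, IsLocalization.AtPrime.to_map_mem_maximal_iff _ (Q0 A)]
    exact h0
  have hgsq : g ∉ maximalIdeal (Localization.AtPrime (Q0 A)) ^ 2 := notMem_sq h0 h1
  obtain ⟨hBreg, hBdim⟩ := RB_quot_regular (fun _ : Fin 1 => g) (fun _ => hgmem) (RB_single hgsq)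
  rw [Set.range_const] at hBreg hBdim
  have hBdom : IsDomain (Localization.AtPrime (Q0 A) ⧸ Ideal.span {g}) :=
    isDomain_of_isRegularLocalRing (Localization.AtPrime (Q0 A) ⧸ Ideal.span {g})
  have hBd : ringKrullDim (Localization.AtPrime (Q0 A) ⧸ Ideal.span {g}) = ringKrullDim A := by
    obtain ⟨m, hm⟩ := RB_dim_nat (Localization.AtPrime (Q0 A) ⧸ Ideal.span {g})
    obtain ⟨n, hn⟩ := RB_dim_nat A
    rw [hdS, hm, hn] at hBdim
    have : n + 1 = m + 1 := by exact_mod_cast hBdim
    rw [hm, hn]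
    have : m = n := by omega
    rw [this]
  have hAdom : IsDomain A := isDomain_of_isRegularLocalRing _
  have hker : ∀ a ∈ Ideal.span {g}, φ a = 0 := by
    intro a ha
    obtain ⟨b, rfl⟩ := Ideal.mem_span_singleton'.1 ha
    rw [map_mul, hg, hφ, hGs', mul_zero]
  set ψ : (Localization.AtPrime (Q0 A) ⧸ Ideal.span {g}) →+* F :=
    Ideal.Quotient.lift (Ideal.span {g}) φ hker with hψ
  have hψmk : ∀ a, ψ (Ideal.Quotient.mk _ a) = φ a := fun a => Ideal.Quotient.lift_mk _ _ _
  have hinj : Function.Injective ψ := by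
    set ι : A →+* (Localization.AtPrime (Q0 A) ⧸ Ideal.span {g}) :=
      (Ideal.Quotient.mk (Ideal.span {g})).comp
        ((algebraMap A[X] (Localization.AtPrime (Q0 A))).comp C) with hι
    have hev : ∀ f : A[X], f.eval₂ ι (Ideal.Quotient.mk (Ideal.span {g})
        (algebraMap A[X] (Localization.AtPrime (Q0 A)) X)) =
        Ideal.Quotient.mk (Ideal.span {g}) (algebraMap A[X] (Localization.AtPrime (Q0 A)) f) := by
      intro f
      have h2 := Polynomial.hom_eval₂ f (C : A →+* A[X])
        ((Ideal.Quotient.mk (Ideal.span {g})).comp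
          (algebraMap A[X] (Localization.AtPrime (Q0 A)))) X
      rw [Polynomial.eval₂_C_X] at h2
      exact h2.symm
    refine et_injective ι (Ideal.Quotient.mk (Ideal.span {g})
      (algebraMap A[X] (Localization.AtPrime (Q0 A)) X)) G' hG'0 ?_ ?_ ψ ?_
    · rw [hev, Ideal.Quotient.eq_zero_iff_mem]
      exact Ideal.mem_span_singleton_self g
    · intro b
      obtain ⟨a, rfl⟩ := Ideal.Quotient.mk_surjective b
      obtain ⟨⟨f, q⟩, hfq⟩ := IsLocalization.surj (Q0 A).primeCompl a
      refine ⟨Ideal.Quotient.mk _ (algebraMap A[X] (Localization.AtPrime (Q0 A)) (q : A[X])),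
        (IsLocalization.map_units (Localization.AtPrime (Q0 A)) q).map _, f, ?_⟩
      rw [hev, ← map_mul]
      exact congrArg _ hfq
    · intro a ha
      rw [hι, RingHom.comp_apply, RingHom.comp_apply, hψmk, hφ, Polynomial.eval₂_C] at ha
      exact Subtype.ext ha
  have hrange : ψ.range = locV (ball F) (Subring.closure ((A : Set F) ∪ {s})) := by
    rw [← hφr]
    ext z
    simp only [RingHom.mem_range]
    constructor
    · rintro ⟨b, rfl⟩
      obtain ⟨a, rfl⟩ := Ideal.Quotient.mk_surjective b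
      exact ⟨a, (hψmk a).symm⟩
    · rintro ⟨a, rfl⟩
      exact ⟨Ideal.Quotient.mk _ a, hψmk a⟩
  have hbij : Function.Bijective ψ.rangeRestrict :=
    ⟨fun x y hxy => hinj (congrArg Subtype.val hxy), ψ.rangeRestrict_surjective⟩
  have e : (Localization.AtPrime (Q0 A) ⧸ Ideal.span {g}) ≃+*
      locV (ball F) (Subring.closure ((A : Set F) ∪ {s})) :=
    (RingEquiv.ofBijective ψ.rangeRestrict hbij).trans (RingEquiv.subringCongr hrange)
  refine ⟨locV_le _ hclo, locV_locV _ _, hA.ind, fun i => hlelocV (hAclo (hA.mem i)),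
    fun y hy => hlelocV (hAclo (hA.gmem y hy)), hA.glt, ?_, 
    IsRegularLocalRing.of_ringEquiv (R := Localization.AtPrime (Q0 A) ⧸ Ideal.span {g}) e, ?_⟩
  · -- generators
    -- first `s` itself
    obtain ⟨G2, hG2⟩ : ∃ G2 : A[X], G' = C (G'.coeff 0) + X * (C (G'.coeff 1) + X * G2) := by
      refine ⟨G'.divX.divX, ?_⟩
      have e1 := Polynomial.divX_mul_X_add G'
      have e2 := Polynomial.divX_mul_X_add G'.divX
      rw [Polynomial.coeff_divX, zero_add] at e2
      conv_lhs => rw [← e1, ← e2]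
      ring
    set h : F := G.coeff 1 + s * G2.eval₂ A.subtype s with hh
    have hG2clo : G2.eval₂ A.subtype s ∈ Subring.closure ((A : Set F) ∪ {s}) :=
      (mem_closure_adj_iff A s _).2 ⟨G2, rfl⟩
    have hG2le : ‖G2.eval₂ A.subtype s‖ ≤ 1 := hclo hG2clo
    have hsG : ‖s * G2.eval₂ A.subtype s‖ < 1 := by
      rw [norm_mul]
      calc ‖s‖ * ‖G2.eval₂ A.subtype s‖ ≤ ‖s‖ * 1 :=
            mul_le_mul_of_nonneg_left hG2le (norm_nonneg _)
        _ < 1 := by rw [mul_one]; exact hs
    have hh1 : ‖h‖ = 1 := by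
      rw [hh, IsUltrametricDist.norm_add_eq_max_of_norm_ne_norm (by rw [hG1]; exact hsG.ne'),
        hG1, max_eq_left hsG.le]
    have hhclo : h ∈ Subring.closure ((A : Set F) ∪ {s}) :=
      Subring.add_mem _ (hAclo (hG 1)) (Subring.mul_mem _ hsclo hG2clo)
    have hsh : G.coeff 0 + s * h = 0 := by
      have h2 : G'.eval₂ A.subtype s = (G'.coeff 0 : F) + s * ((G'.coeff 1 : F) +
          s * G2.eval₂ A.subtype s) := by
        conv_lhs => rw [hG2]
        simp only [Polynomial.eval₂_add, Polynomial.eval₂_mul, Polynomial.eval₂_C,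
          Polynomial.eval₂_X, Subring.subtype_apply]
      rw [hGs', hcoef, hcoef] at h2
      exact h2.symm
    have hh0 : h ≠ 0 := by
      intro h0
      rw [h0, norm_zero] at hh1
      exact zero_ne_one hh1
    rintro z ⟨a, ha, b, hb, hb1, hzb⟩ hz1
    rw [val_eq_one_iff] at hb1
    have hb0 : b ≠ 0 := by
      intro h0
      rw [h0, norm_zero] at hb1
      exact zero_ne_one hb1
    obtain ⟨f, hf⟩ := (mem_closure_adj_iff A s a).1 ha
    obtain ⟨g1, hg1, hg1c, hfe⟩ := exists_eval_eq hA.le hs f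
    rw [hf] at hfe
    have hf0 : ‖(f.coeff 0 : F)‖ < 1 := by
      have h2 : (f.coeff 0 : F) = a - s * g1 := by rw [hfe]; ring
      have ha1 : ‖a‖ < 1 := by
        rw [← hzb, norm_mul, hb1, mul_one]
        exact hz1
      have hsg : ‖s * g1‖ < 1 := by
        rw [norm_mul]
        calc ‖s‖ * ‖g1‖ ≤ ‖s‖ * 1 := mul_le_mul_of_nonneg_left hg1 (norm_nonneg _)
          _ < 1 := by rw [mul_one]; exact hs
      rw [h2]
      have h3 := IsUltrametricDist.norm_add_le_max a (-(s * g1))
      rw [norm_neg, ← sub_eq_add_neg] at h3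
      exact h3.trans_lt (max_lt ha1 hsg)
    obtain ⟨c1, d1, hc1, hd1, he1⟩ := hA.gen _ (f.coeff 0).2 hf0
    obtain ⟨c2, d2, hc2, hd2, he2⟩ := hA.gen _ (hG 0) hc0
    have hinv : ∀ x ∈ Subring.closure ((A : Set F) ∪ {s}), ‖x‖ = 1 →
        x⁻¹ ∈ locV (ball F) (Subring.closure ((A : Set F) ∪ {s})) := by
      intro x hx hx1
      have hx0 : x ≠ 0 := by
        intro h0
        rw [h0, norm_zero] at hx1
        exact zero_ne_one hx1
      exact ⟨1, Subring.one_mem _, x, hx, (val_eq_one_iff x).2 hx1, inv_mul_cancel₀ hx0⟩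
    have hbi := hinv b hb hb1
    have hhi := hinv h hhclo hh1
    set t : F := h⁻¹ * g1 with ht
    have htm : t ∈ locV (ball F) (Subring.closure ((A : Set F) ∪ {s})) :=
      Subring.mul_mem _ hhi (hlelocV hg1c)
    refine ⟨fun i => (c1 i - c2 i * t) * b⁻¹, fun y => (d1 y - d2 y * t) * b⁻¹, ?_, ?_, ?_⟩
    · intro i
      exact Subring.mul_mem _ (Subring.sub_mem _ (hlelocV (hAclo (hc1 i)))
        (Subring.mul_mem _ (hlelocV (hAclo (hc2 i))) htm)) hbi
    · intro y
      exact Subring.mul_mem _ (Subring.sub_mem _ (hlelocV (hAclo (hd1 y)))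
        (Subring.mul_mem _ (hlelocV (hAclo (hd2 y))) htm)) hbi
    · have hs' : s = -(G.coeff 0) * h⁻¹ := by
        rw [eq_mul_inv_iff_mul_eq₀ hh0]
        linear_combination hsh
      have hz : z = ((f.coeff 0 : F) - G.coeff 0 * t) * b⁻¹ := by
        rw [eq_mul_inv_iff_mul_eq₀ hb0, hzb, hfe, ht]
        conv_lhs => rw [hs']
        ring
      have hsum1 : ∑ i, (c1 i - c2 i * t) * b⁻¹ * u i =
          (∑ i, c1 i * u i - (∑ i, c2 i * u i) * t) * b⁻¹ := by
        rw [sub_mul, Finset.sum_mul, Finset.sum_mul, Finset.sum_mul, ← Finset.sum_sub_distrib]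
        exact Finset.sum_congr rfl fun i _ => by ring
      have hsum2 : ∑ y ∈ gs, (d1 y - d2 y * t) * b⁻¹ * y =
          (∑ y ∈ gs, d1 y * y - (∑ y ∈ gs, d2 y * y) * t) * b⁻¹ := by
        rw [sub_mul, Finset.sum_mul, Finset.sum_mul, Finset.sum_mul, ← Finset.sum_sub_distrib]
        exact Finset.sum_congr rfl fun i _ => by ring
      rw [hsum1, hsum2, hz, he1, he2]
      ring
  · have h2 := ringKrullDim_eq_of_ringEquiv
      (R := Localization.AtPrime (Q0 A) ⧸ Ideal.span {g}) e
    rw [← h2, hBd, hA.dim]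

end TA
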