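import Pool.Agent.Lib.TA.Defs
import Pool.Agent.Lib.HR.NF

/-!
# Module TA.Ref: approximation of a generator of a finite separable extension of a dense subfield

PROOF of `refine_root`.  Let `g` be the minimal polynomial of `th` over `E` as an element of `F[X]`
(`(minpoly E th).map E.subtype` or `algebraMap`): `PolyIn E g`, `g(th) = 0`, and `g'(th) ≠ 0` (separable:
`Polynomial.Separable.aeval_derivative_ne_zero`).  For `z ∈ Z` choose `h z` over `E` with `(h z)(th) = z`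
(`hgen`).
NOTATION: `f_n(a) = (taylor a f).coeff n`, so `f_0(a) = f(a)` (`taylor_coeff_zero`) and
`f_1(a) = f'(a)` (`taylor_coeff_one`), `f(t) = ∑ n, f_n(a) * (t - a) ^ n` (`Polynomial.sum_taylor_eq`,
`taylor_eval_sub`).  Let `C ≥ 1` be a bound for all `‖f_n(th)‖`, `f = g` or `h z` (finitely many nonzero
numbers).  For `‖th - a‖ ≤ 1` we have `‖f_n(a)‖ ≤ C`, because `taylor a f = taylor (a - th) (taylor th f)`
(`taylor_taylor`) and the integers have norm `≤ 1`.  Let `η = ‖g'(th)‖ > 0`.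
CHOICE: `μ ∈ E`, `μ ≠ 0`, `‖μ‖ ≤ 1`, `C * ‖μ‖ ≤ η` and `C * ‖μ‖ ≤ ‖z‖` for all `z ∈ Z` (a high power of
the element of `hnt`), and `a ∈ E` with `‖th - a‖ < ‖μ‖` (`hd`).  Put `s = (th - a) / μ`, `‖s‖ < 1`.
Then, for `f = g`: `‖g'(a) - g'(th)‖ ≤ C * ‖th - a‖ < η`, so `‖g'(a)‖ = η`; for `z ∈ Z`:
`‖(h z)(a) - z‖ ≤ C * ‖th - a‖ < ‖z‖`, so `‖(h z)(a)‖ = ‖z‖`.
`G = C ((μ * g'(a))⁻¹) * (taylor a g).comp (C μ * X)`: its coefficient of index `n` is
`g_n(a) * μ ^ n / (μ * g'(a))` (`comp_C_mul_X_coeff`), it is over `E`; it is `1` for `n = 1`; of norm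
`≤ C * ‖μ‖ ^ (n - 1) / η ≤ 1` for `n ≥ 2`; and `G(s) = (taylor a g)(th - a) / … = g(th) / … = 0`.  For
`n = 0`: `g(a) = - ∑_{n ≥ 1} g_n(a) (th - a) ^ n`, so `‖g(a)‖ ≤ ‖th - a‖ * max η (C * ‖th - a‖) ≤
η * ‖th - a‖ ≤ η * ‖μ‖`, so `‖G.coeff 0‖ ≤ 1`.
For `z ∈ Z`: `z' = (h z)(a)`, `Q = C (z'⁻¹) * (taylor a (h z)).comp (C μ * X) - 1`: the constant coefficient
is zero, the coefficient of index `n ≥ 1` has norm `≤ C * ‖μ‖ ^ n / ‖z‖ ≤ 1`, `z' * (1 + Q(s)) =
(taylor a (h z))(th - a) = z`, and `‖Q(s)‖ ≤ max_{n ≥ 1} ‖s‖ ^ n < 1`.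
-/

open IsLocalRing Polynomial

namespace TA
open Pool.Agent.Lib.MP_3029eb_ag Pool.Agent.Lib.MP_3029eb_ag.Abh

variable {F : Type} [NormedField F] [IsUltrametricDist F]

private theorem rf_eval_le {h : F[X]} {C : ℝ} (hC : ∀ n, ‖h.coeff n‖ ≤ C) {r : F}
    (hr : ‖r‖ ≤ 1) : ‖h.eval r‖ ≤ C := by
  have hC0 : 0 ≤ C := (norm_nonneg _).trans (hC 0)
  rw [eval_eq_sum_range]
  refine IsUltrametricDist.norm_sum_le_of_forall_le_of_nonneg hC0 fun i _ => ?_
  rw [norm_mul, norm_pow]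
  exact (mul_le_of_le_one_right (norm_nonneg _) (pow_le_one₀ (norm_nonneg _) hr)).trans (hC i)

private theorem rf_eval_sub_le {h : F[X]} {C : ℝ} (hC : ∀ n, ‖h.coeff n‖ ≤ C) {r : F}
    (hr : ‖r‖ ≤ 1) : ‖h.eval r - h.coeff 0‖ ≤ C * ‖r‖ := by
  have h1 : h.eval r - h.coeff 0 = h.divX.eval r * r := by
    conv_lhs => rw [← divX_mul_X_add h]
    simp
  rw [h1, norm_mul]
  refine mul_le_mul_of_nonneg_right (rf_eval_le (fun n => ?_) hr) (norm_nonneg _)
  rw [coeff_divX]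
  exact hC _

private theorem rf_taylor_sub {h : F[X]} {C : ℝ} (hC : ∀ n, ‖h.coeff n‖ ≤ C) {r : F}
    (hr : ‖r‖ ≤ 1) (n : ℕ) : ‖(taylor r h).coeff n - h.coeff n‖ ≤ C * ‖r‖ := by
  rw [taylor_coeff]
  have h1 : (hasseDeriv n h).coeff 0 = h.coeff n := by
    rw [hasseDeriv_coeff]; simp
  rw [← h1]
  refine rf_eval_sub_le (fun m => ?_) hr
  rw [hasseDeriv_coeff, norm_mul]
  exact (mul_le_of_le_one_left (norm_nonneg _)
    (IsUltrametricDist.norm_natCast_le_one F _)).trans (hC _)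

/-- Recentering a polynomial with bounded Taylor coefficients at `th`. -/
private theorem rf_recenter {h : F[X]} {C : ℝ} {th a : F}
    (hC : ∀ n, ‖(taylor th h).coeff n‖ ≤ C) (hr : ‖th - a‖ ≤ 1) (n : ℕ) :
    ‖(taylor a h).coeff n - (taylor th h).coeff n‖ ≤ C * ‖th - a‖ := by
  have h1 : taylor a h = taylor (a - th) (taylor th h) := by
    rw [taylor_taylor, sub_add_cancel]
  have h2 : ‖a - th‖ = ‖th - a‖ := norm_sub_rev _ _
  rw [h1, ← h2]
  exact rf_taylor_sub hC (h2.le.trans hr) n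

private theorem rf_recenter_le {h : F[X]} {C : ℝ} {th a : F}
    (hC : ∀ n, ‖(taylor th h).coeff n‖ ≤ C) (hr : ‖th - a‖ ≤ 1) (n : ℕ) :
    ‖(taylor a h).coeff n‖ ≤ C := by
  have hC0 : 0 ≤ C := (norm_nonneg _).trans (hC 0)
  have h1 := rf_recenter hC hr n
  have h2 : (taylor a h).coeff n = ((taylor a h).coeff n - (taylor th h).coeff n) +
    (taylor th h).coeff n := by ring
  rw [h2]
  exact (IsUltrametricDist.norm_add_le_max _ _).trans (max_le (h1.trans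
    (mul_le_of_le_one_right hC0 hr)) (hC n))

omit [IsUltrametricDist F] in
private theorem rf_bound (h : F[X]) : ∃ C : ℝ, 1 ≤ C ∧ ∀ n, ‖h.coeff n‖ ≤ C := by
  refine ⟨1 + ∑ n ∈ h.support, ‖h.coeff n‖, ?_, fun n => ?_⟩
  · have : 0 ≤ ∑ n ∈ h.support, ‖h.coeff n‖ := Finset.sum_nonneg fun _ _ => norm_nonneg _
    linarith
  · by_cases hn : n ∈ h.support
    · have := Finset.single_le_sum (f := fun n => ‖h.coeff n‖) (fun _ _ => norm_nonneg _) hn
      linarith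
    · rw [notMem_support_iff.1 hn, norm_zero]
      have : 0 ≤ ∑ n ∈ h.support, ‖h.coeff n‖ := Finset.sum_nonneg fun _ _ => norm_nonneg _
      linarith

omit [IsUltrametricDist F] in
private theorem rf_min (Z : Finset F) (hZ : ∀ z ∈ Z, z ≠ 0) (η : ℝ) (hη : 0 < η) :
    ∃ δ : ℝ, 0 < δ ∧ δ ≤ η ∧ ∀ z ∈ Z, δ ≤ ‖z‖ := by
  classical
  induction Z using Finset.induction_on with
  | empty => exact ⟨η, hη, le_refl _, fun z hz => absurd hz (Finset.notMem_empty z)⟩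
  | insert w Z _ ih =>
    obtain ⟨δ, h1, h2, h3⟩ := ih fun z hz => hZ z (Finset.mem_insert_of_mem hz)
    refine ⟨min δ ‖w‖, lt_min h1 (norm_pos_iff.2 (hZ w (Finset.mem_insert_self w Z))),
      (min_le_left _ _).trans h2, fun z hz => ?_⟩
    rw [Finset.mem_insert] at hz
    rcases hz with rfl | hz
    · exact min_le_right _ _
    · exact (min_le_left _ _).trans (h3 z hz)

private theorem rf_norm_eq {a b : F} (h : ‖a - b‖ < ‖b‖) : ‖a‖ = ‖b‖ := by
  have h1 : a = (a - b) + b := by ring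
  rw [h1, IsUltrametricDist.norm_add_eq_max_of_norm_ne_norm h.ne, max_eq_right h.le]

omit [IsUltrametricDist F] in
private theorem rf_comp_eval (f : F[X]) {a μ s th : F} (h : μ * s = th - a) :
    ((taylor a f).comp (C μ * X)).eval s = f.eval th := by
  rw [eval_comp, eval_mul, eval_C, eval_X, h, taylor_eval, sub_add_cancel]

theorem refine_root {E : Subfield F} (hd : ∀ x : F, ∀ ε : ℝ, 0 < ε → ∃ a ∈ E, ‖x - a‖ < ε)
    (hnt : ∃ x ∈ E, x ≠ 0 ∧ ‖x‖ < 1) {th : F} (hsep : IsSeparable E th)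
    (hgen : ∀ z : F, ∃ h : F[X], HR.PolyIn E h ∧ h.eval th = z) (Z : Finset F)
    (hZ : ∀ z ∈ Z, z ≠ 0) :
    ∃ a ∈ E, ∃ μ ∈ E, μ ≠ 0 ∧ ‖(th - a) / μ‖ < 1 ∧
      (∃ G : F[X], HR.PolyIn E G ∧ (∀ n, ‖G.coeff n‖ ≤ 1) ∧ G.coeff 1 = 1 ∧
        G.eval ((th - a) / μ) = 0) ∧
      ∀ z ∈ Z, ∃ z' ∈ E, ∃ Q : F[X], HR.PolyIn E Q ∧ (∀ n, ‖Q.coeff n‖ ≤ 1) ∧
        ‖Q.eval ((th - a) / μ)‖ < 1 ∧ z = z' * (1 + Q.eval ((th - a) / μ)) := by
  classical
  obtain ⟨x0, hx0E, hx00, hx01⟩ := hnt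
  set g : F[X] := (minpoly E th).map (algebraMap E F) with hg
  have hgE : HR.PolyIn E g := fun n => by
    rw [hg, coeff_map]
    exact ((minpoly E th).coeff n).2
  have hg0 : g.eval th = 0 := by
    rw [hg, eval_map_algebraMap]
    exact minpoly.aeval E th
  have hg1 : (taylor th g).coeff 1 ≠ 0 := by
    rw [taylor_coeff_one, hg, derivative_map, eval_map_algebraMap]
    exact Polynomial.Separable.aeval_derivative_ne_zero hsep (minpoly.aeval E th)
  choose hz hzE hzth using hgen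
  obtain ⟨Cg, hCg1, hCg⟩ := rf_bound (taylor th g)
  choose Cz hCz1 hCz using fun z => rf_bound (taylor th (hz z))
  obtain ⟨Cm, hCm⟩ : ∃ Cm, Cm = Cg + ∑ z ∈ Z, Cz z := ⟨_, rfl⟩
  have hsum : 0 ≤ ∑ z ∈ Z, Cz z := Finset.sum_nonneg fun z _ => zero_le_one.trans (hCz1 z)
  have hCmg : Cg ≤ Cm := by linarith
  have hCmz : ∀ z ∈ Z, Cz z ≤ Cm := fun z hz => by
    have := Finset.single_le_sum (f := Cz) (fun z _ => zero_le_one.trans (hCz1 z)) hz
    linarith
  have hCm1 : 1 ≤ Cm := hCg1.trans hCmg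
  have hCm0 : 0 < Cm := one_pos.trans_le hCm1
  obtain ⟨η, hη⟩ : ∃ η, η = ‖(taylor th g).coeff 1‖ := ⟨_, rfl⟩
  have hη0 : 0 < η := by rw [hη]; exact norm_pos_iff.2 hg1
  obtain ⟨δ, hδ0, hδη, hδZ⟩ := rf_min Z hZ η hη0
  obtain ⟨N, hN⟩ := exists_pow_lt_of_lt_one (div_pos hδ0 hCm0) hx01
  have hμE : x0 ^ N ∈ E := pow_mem hx0E N
  have hμ0 : x0 ^ N ≠ 0 := pow_ne_zero N hx00
  have hμ1 : ‖x0 ^ N‖ ≤ 1 := by
    rw [norm_pow]; exact pow_le_one₀ (norm_nonneg _) hx01.le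
  have hμδ : Cm * ‖x0 ^ N‖ ≤ δ := by
    rw [norm_pow]
    rw [lt_div_iff₀ hCm0] at hN
    linarith
  obtain ⟨μ, hμ⟩ : ∃ μ, μ = x0 ^ N := ⟨_, rfl⟩
  rw [← hμ] at hμE hμ0 hμ1 hμδ
  have hμp : 0 < ‖μ‖ := norm_pos_iff.2 hμ0
  obtain ⟨a, haE, ha⟩ := hd th ‖μ‖ hμp
  have ha1 : ‖th - a‖ ≤ 1 := ha.le.trans hμ1
  have hCa : Cm * ‖th - a‖ < δ := (mul_lt_mul_of_pos_left ha hCm0).trans_le hμδ
  obtain ⟨s, hs⟩ : ∃ s, s = (th - a) / μ := ⟨_, rfl⟩
  have hsμ : μ * s = th - a := by rw [hs, mul_div_cancel₀ _ hμ0]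
  have hs1 : ‖s‖ < 1 := by rw [hs, norm_div, div_lt_one hμp]; exact ha
  refine ⟨a, haE, μ, hμE, hμ0, by rw [← hs]; exact hs1, ?_, ?_⟩
  · rw [← hs]
    have hCg' : ∀ n, ‖(taylor th g).coeff n‖ ≤ Cm := fun n => (hCg n).trans hCmg
    have hga : ∀ n, ‖(taylor a g).coeff n‖ ≤ Cm := fun n => rf_recenter_le hCg' ha1 n
    have hη' : ‖(taylor a g).coeff 1‖ = η := by
      rw [hη]
      refine rf_norm_eq ((rf_recenter hCg' ha1 1).trans_lt ?_)
      rw [← hη]
      exact hCa.trans_le hδη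
    have h10 : (taylor a g).coeff 1 ≠ 0 := by
      rw [← norm_pos_iff, hη']; exact hη0
    refine ⟨C ((μ * (taylor a g).coeff 1)⁻¹) * (taylor a g).comp (C μ * X), ?_, ?_, ?_, ?_⟩
    · exact HR.polyIn_mul (HR.polyIn_C (inv_mem (mul_mem hμE (HR.polyIn_taylor hgE haE 1))))
        (HR.polyIn_comp (HR.polyIn_taylor hgE haE) (HR.polyIn_mul (HR.polyIn_C hμE) HR.polyIn_X))
    · intro n
      rw [coeff_C_mul, comp_C_mul_X_coeff, norm_mul, norm_inv, norm_mul, hη', norm_mul, norm_pow]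
      rw [inv_mul_le_iff₀ (mul_pos hμp hη0), mul_one]
      rcases n with _ | _ | n
      · rw [pow_zero, mul_one]
        have h2 : (taylor a g).coeff 0 = -((taylor a g).divX.eval (th - a) * (th - a)) := by
          have h3 : (taylor a g).eval (th - a) = 0 := by
            rw [taylor_eval, sub_add_cancel, hg0]
          have h4 := congrArg (fun q => eval (th - a) q) (divX_mul_X_add (taylor a g))
          simp only [eval_add, eval_mul, eval_X, eval_C, h3] at h4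
          exact eq_neg_of_add_eq_zero_right h4
        rw [h2, norm_neg, norm_mul, mul_comm ‖μ‖]
        refine mul_le_mul ?_ ha.le (norm_nonneg _) hη0.le
        have h5 := rf_eval_sub_le (h := (taylor a g).divX) (C := Cm) (r := th - a)
          (fun n => by rw [coeff_divX]; exact hga _) ha1
        have h6 : (taylor a g).divX.coeff 0 = (taylor a g).coeff 1 := by rw [coeff_divX]
        rw [h6] at h5
        have h7 : (taylor a g).divX.eval (th - a) = ((taylor a g).divX.eval (th - a) -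
          (taylor a g).coeff 1) + (taylor a g).coeff 1 := by ring
        rw [h7]
        exact (IsUltrametricDist.norm_add_le_max _ _).trans (max_le (h5.trans
          (hCa.le.trans hδη)) hη'.le)
      · rw [zero_add, pow_one, hη', mul_comm]
      · have h2 : ‖(taylor a g).coeff (n + 1 + 1)‖ * ‖μ‖ ^ (n + 1 + 1) ≤ Cm * (‖μ‖ * ‖μ‖) := by
          refine mul_le_mul (hga _) ?_ (by positivity) hCm0.le
          rw [← pow_two]
          exact pow_le_pow_of_le_one hμp.le hμ1 (by omega)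
        refine h2.trans ?_
        rw [← mul_assoc, mul_comm]
        exact mul_le_mul_of_nonneg_left (hμδ.trans hδη) hμp.le
    · rw [coeff_C_mul, comp_C_mul_X_coeff, pow_one, mul_comm ((taylor a g).coeff 1) μ]
      exact inv_mul_cancel₀ (mul_ne_zero hμ0 h10)
    · rw [eval_mul, eval_C, rf_comp_eval g hsμ, hg0, mul_zero]
  · intro z hzZ
    rw [← hs]
    have hCf : ∀ n, ‖(taylor th (hz z)).coeff n‖ ≤ Cm := fun n => (hCz z n).trans (hCmz z hzZ)
    have hfa : ∀ n, ‖(taylor a (hz z)).coeff n‖ ≤ Cm := fun n => rf_recenter_le hCf ha1 n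
    have h0 : (taylor th (hz z)).coeff 0 = z := by rw [taylor_coeff_zero, hzth]
    have hz' : ‖(taylor a (hz z)).coeff 0‖ = ‖z‖ := by
      have h2 := rf_recenter hCf ha1 0
      rw [h0] at h2
      exact rf_norm_eq (h2.trans_lt (hCa.trans_le (hδZ z hzZ)))
    have hzp : 0 < ‖z‖ := norm_pos_iff.2 (hZ z hzZ)
    have hz0 : (taylor a (hz z)).coeff 0 ≠ 0 := by rw [← norm_pos_iff, hz']; exact hzp
    have hcoef0 : (C (((taylor a (hz z)).coeff 0)⁻¹) * (taylor a (hz z)).comp (C μ * X) -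
        1).coeff 0 = 0 := by
      rw [coeff_sub, coeff_C_mul, comp_C_mul_X_coeff, pow_zero, mul_one, inv_mul_cancel₀ hz0,
        coeff_one_zero, sub_self]
    have hcoef : ∀ n, ‖(C (((taylor a (hz z)).coeff 0)⁻¹) * (taylor a (hz z)).comp (C μ * X) -
        1).coeff n‖ ≤ 1 := by
      intro n
      rcases Nat.eq_zero_or_pos n with rfl | hn
      · rw [hcoef0, norm_zero]; exact zero_le_one
      · rw [coeff_sub, coeff_one, if_neg (by omega), sub_zero, coeff_C_mul, comp_C_mul_X_coeff,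
          norm_mul, norm_inv, hz', norm_mul, norm_pow, inv_mul_le_iff₀ hzp, mul_one]
        refine le_trans ?_ (hμδ.trans (hδZ z hzZ))
        refine mul_le_mul (hfa n) ?_ (by positivity) hCm0.le
        exact pow_le_of_le_one hμp.le hμ1 (by omega)
    refine ⟨(taylor a (hz z)).coeff 0, HR.polyIn_taylor (hzE z) haE 0,
      C (((taylor a (hz z)).coeff 0)⁻¹) * (taylor a (hz z)).comp (C μ * X) - 1, ?_, hcoef, ?_, ?_⟩
    · refine HR.polyIn_sub (HR.polyIn_mul (HR.polyIn_C (inv_mem (HR.polyIn_taylor (hzE z) haE 0)))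
        (HR.polyIn_comp (HR.polyIn_taylor (hzE z) haE)
          (HR.polyIn_mul (HR.polyIn_C hμE) HR.polyIn_X))) ?_
      have h1 : (1 : F[X]) = C 1 := by simp
      rw [h1]
      exact HR.polyIn_C (one_mem E)
    · have h2 := rf_eval_sub_le hcoef hs1.le
      rw [hcoef0, sub_zero, one_mul] at h2
      exact h2.trans_lt hs1
    · rw [eval_sub, eval_mul, eval_C, rf_comp_eval (hz z) hsμ, eval_one, add_sub_cancel, hzth,
        ← mul_assoc, mul_inv_cancel₀ hz0, one_mul]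

end TA
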