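import Pool.Agent.Lib.TA.ChLy
import Pool.Agent.Lib.TA.Et
import Pool.Agent.Lib.TA.Ref

/-!
# Module TA.ChF: charts of `F` monomializing a finite set

PROOF of `chart_F`.  Let `E = adj L y`.  It is dense (`D.dense`), contains `w 0` (`0 < r`;
`w i ∈ chart k gens`, a quotient of elements of `gring k gens ⊆ L`), with `w i ≠ 0`, `‖w i‖ < 1`
(`D.par.ind`).  `refine_root` for `Z` gives `a, μ ∈ E`, `G`, and `z', Q z` for `z ∈ Z`; `s := (th - a) / μ`.
By `mem_adj_gring`: `a * a2 = a1`, `μ * m2 = m1`, with `a1, a2, m1, m2 ∈ gring k (gens ∪ {y})`, `a2, m2 ≠ 0`,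
so `m1 ≠ 0` as well.
Let `X` be the finite set of: `1`, `a2`, `m1`, the nonzero coefficients of `G`, the `z'` (nonzero because
`z ≠ 0`), the nonzero coefficients of the `Q z`, `z ∈ Z`.  All are nonzero elements of `E`.  `chart_Ly` gives
`u'`, `Y`, `A3 = chart k (gens ∪ range u' ∪ {Y})`.  An element `x ∈ X` with `‖x‖ ≤ 1` is `MonV` in `A3`
(`x = x / 1`), so in `A3` (`MonV.mem`).  So the coefficients of `G` are in `A3`; `par_etale` (with
`G.coeff 1 = 1`, `norm_one`) and `chart_union` give `Par A4 u' {Y}`, `A4 = chart k (gens ∪ range u' ∪ {Y} ∪ {s})`.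
For `z ∈ Z`: `U z = 1 + (Q z)(s)` is in `A4` with `‖U z‖ = 1`, so `‖z‖ = ‖z'‖`; for `z₁, z₂ ∈ Z` with
`‖z₁‖ ≤ ‖z₂‖`: `z₁ / z₂ = (z₁' / z₂') * (U z₁ * (U z₂)⁻¹)`, the first factor is `MonV` in `A3`, so in `A4`
(`MonV.mono`, `MonV.var`), the second is a unit of `A4` (`Par.inv_mem`).
DENOMINATORS: for `range u' ∪ {Y}`: `den_mono`.  For `s`: `s * (m1 * a2) = (th * a2 - a1) * m2`; `Den.div`
with `m1`, `a2` `MonV` (norm `≤ 1`: they lie in `gring k (gens ∪ {y})`... if `‖y‖ > 1` this is not clear, so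
use `hy : ‖y‖ ≤ 1`, then `gring k (gens ∪ {y}) ≤ ball` by `gring_le_ball`; `gens ⊆ ball` because
`gens ⊆ chart k gens ≤ ball`).
-/

open IsLocalRing Polynomial

namespace TA
open Pool.Agent.Lib.MP_3029eb_ag Pool.Agent.Lib.MP_3029eb_ag.Abh

variable {F : Type} [NormedField F] [IsUltrametricDist F] {k L : Subfield F} {gens : Finset F}
  {r : ℕ} {w : Fin r → F} {y th : F}

omit [IsUltrametricDist F] in
private lemma chF_eval_mem {B : Subring F} {e : F} (he : e ∈ B) {g : F[X]}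
    (hg : ∀ n, g.coeff n ∈ B) : g.eval e ∈ B := by
  rw [eval_eq_sum_range]
  exact sum_mem fun n _ => mul_mem (hg n) (pow_mem he n)

private lemma chF_norm_one_add {z : F} (h : ‖z‖ < 1) : ‖1 + z‖ = 1 := by
  have h2 : ‖z‖ ≠ ‖(1 : F)‖ := by rw [norm_one]; exact h.ne
  rw [add_comm, IsUltrametricDist.norm_add_eq_max_of_norm_ne_norm h2, norm_one, max_eq_right h.le]

theorem chart_F (D : TAData k gens w L y th) (hy : ‖y‖ ≤ 1) (Z : Finset F)
    (hZ : ∀ z ∈ Z, z ≠ 0) :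
    ∃ (u' : Fin r → F) (Y s : F),
      Par (chart k ((gens : Set F) ∪ Set.range u' ∪ {Y} ∪ {s})) u' {Y} ∧
      (∀ t ∈ Set.range u' ∪ {Y} ∪ {s}, Den (ball F) (gring k ((gens : Set F) ∪ {y} ∪ {th}))
        (chart k ((gens : Set F) ∪ Set.range u' ∪ {Y} ∪ {s})) u' t) ∧
      ∀ z ∈ Z, ∀ z' ∈ Z, ‖z‖ ≤ ‖z'‖ →
        MonV (ball F) (chart k ((gens : Set F) ∪ Set.range u' ∪ {Y} ∪ {s})) u' (z / z') := by
  classical
  have hgring : gring k (gens : Set F) ≤ gring k ((gens : Set F) ∪ {y}) :=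
    gring_mono k Set.subset_union_left
  -- a small element
  have hnt : ∃ x ∈ MP1a953e.adj L y, x ≠ 0 ∧ ‖x‖ < 1 := by
    refine ⟨w ⟨0, D.pos⟩, ?_, D.par.ind.ne _, D.par.ind.lt _⟩
    obtain ⟨a, ha, b, hb, hb1, hab⟩ := D.par.mem ⟨0, D.pos⟩
    rw [mem_adj_gring D.hL]
    refine ⟨a, hgring ha, b, hgring hb, ?_, hab⟩
    rw [val_eq_one_iff] at hb1
    rw [← norm_ne_zero_iff, hb1]; exact one_ne_zero
  obtain ⟨a, haE, μ, hμE, hμ0, hs, ⟨G, hGin, hGn, hG1, hGs⟩, hZ'⟩ :=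
    refine_root D.dense hnt D.sep D.gen Z hZ
  obtain ⟨a1, ha1, a2, ha2, ha20, haa⟩ := (mem_adj_gring D.hL).1 haE
  obtain ⟨m1, hm1, m2, hm2, hm20, hmm⟩ := (mem_adj_gring D.hL).1 hμE
  have hm10 : m1 ≠ 0 := by rw [← hmm]; exact mul_ne_zero hμ0 hm20
  choose! zp hzpE Q hQin hQn hQs hQz using hZ'
  have hzp0 : ∀ z ∈ Z, zp z ≠ 0 := by
    intro z hz h0
    have := hQz z hz
    rw [h0, zero_mul] at this
    exact hZ z hz this
  set s := (th - a) / μ with hsdef
  have hgE : ∀ x ∈ gring k ((gens : Set F) ∪ {y}), x ∈ MP1a953e.adj L y := by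
    intro x hx
    rw [mem_adj_gring D.hL]
    exact ⟨x, hx, 1, one_mem _, one_ne_zero, mul_one _⟩
  let X : Finset F := ((({1, a2, m1} : Finset F) ∪ G.support.image G.coeff) ∪ Z.image zp) ∪
    Z.biUnion (fun z => (Q z).support.image (Q z).coeff)
  have hX : ∀ x ∈ X, x ∈ MP1a953e.adj L y ∧ x ≠ 0 := by
    intro x hx
    simp only [X, Finset.mem_union, Finset.mem_insert, Finset.mem_singleton, Finset.mem_image,
      Finset.mem_biUnion, Polynomial.mem_support_iff] at hx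
    rcases hx with (((rfl | rfl | rfl) | ⟨n, hn, rfl⟩) | ⟨z, hz, rfl⟩) | ⟨z, hz, n, hn, rfl⟩
    · exact ⟨one_mem _, one_ne_zero⟩
    · exact ⟨hgE _ ha2, ha20⟩
    · exact ⟨hgE _ hm1, hm10⟩
    · exact ⟨hGin n, hn⟩
    · exact ⟨hzpE z hz, hzp0 z hz⟩
    · exact ⟨hQin z hz n, hn⟩
  obtain ⟨u', Y, hPar, hDen, hMon⟩ := chart_Ly D X hX
  set A3 := chart k ((gens : Set F) ∪ Set.range u' ∪ {Y}) with hA3
  have h1X : (1 : F) ∈ X := by
    simp only [X, Finset.mem_union, Finset.mem_insert, true_or]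
  have ha2X : a2 ∈ X := by
    simp only [X, Finset.mem_union, Finset.mem_insert, true_or, or_true]
  have hm1X : m1 ∈ X := by
    simp only [X, Finset.mem_union, Finset.mem_insert, Finset.mem_singleton, true_or, or_true]
  have hGX : ∀ n, G.coeff n ≠ 0 → G.coeff n ∈ X := by
    intro n hn
    simp only [X, Finset.mem_union, Finset.mem_image, Polynomial.mem_support_iff]
    exact Or.inl (Or.inl (Or.inr ⟨n, hn, rfl⟩))
  have hzX : ∀ z ∈ Z, zp z ∈ X := by
    intro z hz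
    simp only [X, Finset.mem_union, Finset.mem_image]
    exact Or.inl (Or.inr ⟨z, hz, rfl⟩)
  have hQX : ∀ z ∈ Z, ∀ n, (Q z).coeff n ≠ 0 → (Q z).coeff n ∈ X := by
    intro z hz n hn
    simp only [X, Finset.mem_union, Finset.mem_biUnion, Finset.mem_image,
      Polynomial.mem_support_iff]
    exact Or.inr ⟨z, hz, n, hn, rfl⟩
  have key1 : ∀ x ∈ X, ‖x‖ ≤ 1 → MonV (ball F) A3 u' x := by
    intro x hx hx1
    have := hMon x hx 1 h1X (by rw [norm_one]; exact hx1)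
    rwa [div_one] at this
  have key2 : ∀ x ∈ X, ‖x‖ ≤ 1 → x ∈ A3 := fun x hx hx1 => (key1 x hx hx1).mem hPar.mem
  have hGA : ∀ n, G.coeff n ∈ A3 := by
    intro n
    by_cases h : G.coeff n = 0
    · rw [h]; exact zero_mem _
    · exact key2 _ (hGX n h) (hGn n)
  have hQA : ∀ z ∈ Z, ∀ n, (Q z).coeff n ∈ A3 := by
    intro z hz n
    by_cases h : (Q z).coeff n = 0
    · rw [h]; exact zero_mem _
    · exact key2 _ (hQX z hz n h) (hQn z hz n)
  have hP4 := par_etale hPar hs hGA (by rw [hG1, norm_one]) hGs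
  have hch : locV (ball F) (Subring.closure ((A3 : Set F) ∪ {s})) =
      chart k ((gens : Set F) ∪ Set.range u' ∪ {Y} ∪ {s}) := chart_union k _ _
  rw [hch] at hP4
  have h34 : A3 ≤ chart k ((gens : Set F) ∪ Set.range u' ∪ {Y} ∪ {s}) :=
    chart_mono k Set.subset_union_left
  set A4 := chart k ((gens : Set F) ∪ Set.range u' ∪ {Y} ∪ {s}) with hA4
  have hsA : s ∈ A4 := gring_le_chart _ _ (subset_gring _ _ (Or.inr rfl))
  have hUA : ∀ z ∈ Z, 1 + (Q z).eval s ∈ A4 := fun z hz =>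
    add_mem (one_mem _) (chF_eval_mem hsA fun n => h34 (hQA z hz n))
  have hU1 : ∀ z ∈ Z, ‖1 + (Q z).eval s‖ = 1 := fun z hz => chF_norm_one_add (hQs z hz)
  have hzn : ∀ z ∈ Z, ‖z‖ = ‖zp z‖ := by
    intro z hz
    have h1 := congrArg norm (hQz z hz)
    rw [norm_mul, hU1 z hz, mul_one] at h1
    exact h1
  have hmono : ∀ {f : F}, MonV (ball F) A3 u' f → MonV (ball F) A4 u' f := fun hf =>
    hf.mono h34 fun i => MonV.var i
  refine ⟨u', Y, s, hP4, ?_, ?_⟩
  · intro t ht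
    rcases ht with ht | ht
    · exact den_mono (gring_mono k Set.subset_union_left) h34 (fun i => MonV.var i) (hDen t ht)
    · rw [Set.mem_singleton_iff] at ht
      rw [ht]
      have hgle : gring k ((gens : Set F) ∪ {y}) ≤ gring k ((gens : Set F) ∪ {y} ∪ {th}) :=
        gring_mono k Set.subset_union_left
      have hth : th ∈ gring k ((gens : Set F) ∪ {y} ∪ {th}) := subset_gring _ _ (Or.inr rfl)
      have hball : gring k ((gens : Set F) ∪ {y}) ≤ (ball F).toSubring := by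
        refine gring_le_ball D.triv ?_
        rintro x (hx | hx)
        · exact D.par.le (gring_le_chart _ _ (subset_gring _ _ hx))
        · rw [Set.mem_singleton_iff] at hx
          rw [hx]; exact hy
      have h1 : s * (m1 * a2) = (th * a2 - a1) * m2 := by
        have h2 : s * μ = th - a := by rw [hsdef, div_mul_cancel₀ _ hμ0]
        rw [← hmm, ← haa]
        linear_combination (m2 * a2) * h2
      refine Den.div (Den.of_mem ?_) (Den.of_mem ?_) ?_ h1
      · exact mul_mem (sub_mem (mul_mem hth (hgle ha2)) (hgle ha1)) (hgle hm2)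
      · exact mul_mem (hgle hm1) (hgle ha2)
      · exact (hmono (key1 _ hm1X (hball hm1))).mul (hmono (key1 _ ha2X (hball ha2)))
  · intro z hz z' hz' hzz
    have h1 : z / z' = zp z / zp z' * ((1 + (Q z).eval s) * (1 + (Q z').eval s)⁻¹) := by
      conv_lhs => rw [hQz z hz, hQz z' hz']
      rw [mul_div_mul_comm, div_eq_mul_inv (1 + (Q z).eval s)]
    rw [h1]
    refine (hmono (hMon _ (hzX z hz) _ (hzX z' hz') ?_)).mul (MonV.of_unit ?_ ?_)
    · rw [← hzn z hz, ← hzn z' hz']; exact hzz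
    · exact mul_mem (hUA z hz) (hP4.inv_mem (hUA z' hz') (hU1 z' hz'))
    · rw [val_eq_one_iff, norm_mul, norm_inv, hU1 z hz, hU1 z' hz', inv_one, mul_one]

end TA
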