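import Pool.Agent.Lib.TA.Reg

/-!
# Module TA.Perr: charts of the coefficient field monomializing a finite set

PROOFS.  Put `A1 = chart k gens`; `E2_core` (AbhE2.lean) applied to `A1`, `u = w` gives `u'` and
`A2 = locV (ball F) (closure (A1 ∪ range u'))`, which is `chart k (gens ∪ range u')` (`chart_union`), with
the maximal ideal of `A2` generated by the `u' i`; `A2` is noetherian (`noeth_chart`; `range u'` is finite,
`Finset.univ.image u'`), contained in the ball, and so `Par A2 u' ∅` by `par_of_gen`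
(`u' i ∈ A2` by `le_locV`).  In `hA.gen` the sum over `gs = ∅` is zero.
* `mem_L_iff`: `L = k ⊔ closure gens` is the field generated by `k ∪ gens`, `gring k gens` the ring
  generated by this set: an element of the field is a quotient (`Subfield.mem_closure_iff`,
  `Subfield.closure_union`, or `Subfield.closure_induction`).
* `den_chart`: `z * b = a`, `a, b ∈ gring k gens`, `‖b‖ = 1`: `Den.div (Den.of_mem ha) (Den.of_mem hb)
  (MonV.of_unit …)`.
* `chart_L`: let `X` be a finite subset of `L`, `0 ∉ X`.  There is a common denominator `d ∈ gring k gens`,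
  `d ≠ 0`, with `d * x ∈ gring k gens` for all `x ∈ X` (induction on the finite set, or the product of the
  denominators).  Apply `E2_core` with `T = X.image (d * ·) `: for `x, x' ∈ X` with `‖x‖ ≤ ‖x'‖`,
  `x / x' = (d * x) / (d * x')` is `MonV`.  DENOMINATORS of `u' i`: `u' i * monN w p = monN w q`;
  `monN w q` and `monN w p` have denominators (they lie in `chart k gens`; `den_chart`), and `monN w p` is
  `MonV` in `A2` (product of powers of the `w i`, `MonV.prod`, `MonV.pow`); `Den.div`.
-/

open IsLocalRing Polynomial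

namespace TA
open Pool.Agent.Lib.MP_3029eb_ag Pool.Agent.Lib.MP_3029eb_ag.Abh

variable {F : Type} [NormedField F] [IsUltrametricDist F] {k L : Subfield F} {gens : Finset F}
  {r : ℕ} {w : Fin r → F}

theorem mem_L_iff (hL : L = k ⊔ Subfield.closure (gens : Set F)) {z : F} :
    z ∈ L ↔ ∃ a ∈ gring k (gens : Set F), ∃ b ∈ gring k (gens : Set F), b ≠ 0 ∧ z * b = a := by
  have h1 : L = Subfield.closure ((k : Set F) ∪ gens) := by
    rw [hL, Subfield.closure_union, Subfield.closure_eq]
  rw [h1, Subfield.mem_closure_iff]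
  constructor
  · rintro ⟨a, ha, b, hb, rfl⟩
    by_cases hb0 : b = 0
    · refine ⟨0, zero_mem _, 1, one_mem _, one_ne_zero, ?_⟩
      rw [hb0, div_zero, zero_mul]
    · exact ⟨a, ha, b, hb, hb0, div_mul_cancel₀ _ hb0⟩
  · rintro ⟨a, ha, b, hb, hb0, h⟩
    exact ⟨a, ha, b, hb, by rw [← h, mul_div_cancel_right₀ _ hb0]⟩

theorem den_chart {s : Set F} {A : Subring F} (hA : gring k s ≤ A) {u : Fin r → F} {z : F}
    (hz : z ∈ chart k s) : Den (ball F) (gring k s) A u z := by
  obtain ⟨a, ha, b, hb, hb1, h⟩ := hz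
  exact Den.div (Den.of_mem ha) (Den.of_mem hb) (MonV.of_unit (hA hb) hb1) h

private theorem perr_common (hL : L = k ⊔ Subfield.closure (gens : Set F)) (X : Finset F)
    (hX : ∀ x ∈ X, x ∈ L) : ∃ d ∈ gring k (gens : Set F), d ≠ 0 ∧
      ∀ x ∈ X, d * x ∈ gring k (gens : Set F) := by
  classical
  induction X using Finset.induction_on with
  | empty => exact ⟨1, one_mem _, one_ne_zero, fun x hx => absurd hx (Finset.notMem_empty x)⟩
  | insert a s _ ih =>
    obtain ⟨d, hd, hd0, h⟩ := ih fun x hx => hX x (Finset.mem_insert_of_mem hx)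
    obtain ⟨c, hc, b, hb, hb0, hab⟩ := (mem_L_iff hL).1 (hX a (Finset.mem_insert_self _ _))
    refine ⟨d * b, mul_mem hd hb, mul_ne_zero hd0 hb0, fun x hx => ?_⟩
    rcases Finset.mem_insert.1 hx with rfl | hx
    · have : d * b * x = d * c := by rw [← hab]; ring
      rw [this]
      exact mul_mem hd hc
    · have : d * b * x = b * (d * x) := by ring
      rw [this]
      exact mul_mem hb (h x hx)

theorem chart_L (hA : Par (chart k (gens : Set F)) w ∅)
    (hL : L = k ⊔ Subfield.closure (gens : Set F)) (X : Finset F) (hX : ∀ x ∈ X, x ∈ L ∧ x ≠ 0) :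
    ∃ u' : Fin r → F,
      Par (chart k ((gens : Set F) ∪ Set.range u')) u' ∅ ∧
      (∀ i, MonV (ball F) (chart k ((gens : Set F) ∪ Set.range u')) u' (w i)) ∧
      (∀ i, Den (ball F) (gring k (gens : Set F))
        (chart k ((gens : Set F) ∪ Set.range u')) u' (u' i)) ∧
      ∀ x ∈ X, ∀ x' ∈ X, ‖x‖ ≤ ‖x'‖ →
        MonV (ball F) (chart k ((gens : Set F) ∪ Set.range u')) u' (x / x') := by
  classical
  obtain ⟨d, hd, hd0, hdX⟩ := perr_common hL X fun x hx => (hX x hx).1
  have hgen : ∀ z ∈ chart k (gens : Set F), ‖z‖ < 1 →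
      ∃ c : Fin r → F, (∀ i, c i ∈ chart k (gens : Set F)) ∧ z = ∑ i, c i * w i := by
    intro z hz hz1
    obtain ⟨c, e, hc, -, h⟩ := hA.gen z hz hz1
    refine ⟨c, hc, ?_⟩
    rw [h, Finset.sum_empty, add_zero]
  obtain ⟨u', A2, hind, hA2, hMw, hpq, hgen2, -, hT2⟩ := E2_core (chart k (gens : Set F)) hA.le
    hA.loc w hA.ind hA.mem hgen (X.image fun x => d * x) (by
      intro h hh
      obtain ⟨x, hx, rfl⟩ := Finset.mem_image.1 hh
      exact ⟨gring_le_chart _ _ (hdX x hx), mul_ne_zero hd0 (hX x hx).2⟩)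
  rw [chart_union] at hA2
  subst hA2
  have hsub : gring k (gens : Set F) ≤ chart k ((gens : Set F) ∪ Set.range u') :=
    (gring_mono k Set.subset_union_left).trans (gring_le_chart _ _)
  have hset : ((gens ∪ Finset.univ.image u' : Finset F) : Set F) =
      (gens : Set F) ∪ Set.range u' := by
    rw [Finset.coe_union, Finset.coe_image, Finset.coe_univ, Set.image_univ]
  have hnoeth : IsNoetherianRing (chart k ((gens : Set F) ∪ Set.range u')) := by
    rw [← hset]
    exact noeth_chart k _
  have hle : chart k ((gens : Set F) ∪ Set.range u') ≤ (ball F).toSubring := by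
    refine locV_le _ (gring_le_iff.2 ⟨fun x hx => ?_, ?_⟩)
    · exact hA.le (gring_le_chart _ _ (le_gring k _ hx))
    · rintro x (hx | ⟨i, rfl⟩)
      · exact hA.le (gring_le_chart _ _ (subset_gring k _ hx))
      · exact (hind.lt i).le
  have hmem : ∀ i, u' i ∈ chart k ((gens : Set F) ∪ Set.range u') := fun i =>
    gring_le_chart _ _ (subset_gring k _ (Or.inr ⟨i, rfl⟩))
  have hMonN : ∀ p : Fin r → ℕ,
      MonV (ball F) (chart k ((gens : Set F) ∪ Set.range u')) u' (monN w p) := fun p =>
    MonV.prod _ _ fun i _ => (hMw i).pow _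
  refine ⟨u', par_of_gen hle (loc_chart _ _) hind hmem hgen2, hMw, fun i => ?_, ?_⟩
  · obtain ⟨p, q, h⟩ := hpq i
    exact Den.div (den_chart hsub (E0_monN_mem _ hA.mem q)) (den_chart hsub (E0_monN_mem _ hA.mem p))
      (hMonN p) h
  · intro x hx x' hx' hxx
    have h1 := hT2 (d * x) (Finset.mem_image_of_mem _ hx) (d * x') (Finset.mem_image_of_mem _ hx')
      (by rw [norm_mul, norm_mul]; gcongr)
    rwa [mul_div_mul_left _ _ hd0] at h1

end TA
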