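import Pool.Agent.Lib.TA.Defs
import Pool.Agent.Lib.HR.T4L

/-!
# Module TA.Rec: recentring at a point of type four

PROOFS.
* `t4_eval_ne`: `HR.T4.stable`.
* `expand_at`: `p(y) = p(b + c * ((y - b) / c))`; `taylor b p` evaluated at `y - b` is `p(y)`
  (`Polynomial.taylor_eval`, `Polynomial.taylor_eval_sub`), `(taylor b p).coeff 0 = p.eval b`
  (`Polynomial.taylor_coeff_zero`), `natDegree_taylor`, `Polynomial.eval_eq_sum_range`, split off the term of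
  index zero and factor out `p.eval b ≠ 0`.
* `recenter`: for each `p ∈ P` the condition `tt` gives a point `b_p ∈ L` such that for all `b ∈ L` with
  `‖y - b‖ ≤ ‖y - b_p‖` and all `n ≥ 1`: `‖(taylor b p).coeff n‖ * ‖y - b‖ ^ n < ‖p.eval b‖`.  Choose
  `b₀ ∈ L` with `‖y - b₀‖ ≤ ‖y - b_p‖` for all `p ∈ P` (induction on the finite set, `HR.exists_closer`).
  `y ≠ b₀` (`HR.T4.pos`), so `hval` gives `δ` with `‖y - b₀‖ = ‖mon w δ‖`.  By `imm` there is `b ∈ L`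
  with `‖y - b‖ < ‖y - b₀‖ = ‖mon w δ‖`.  Put `ρ = ‖mon w δ‖`.
  For `p ∈ P`: `‖(taylor b₀ p).coeff n‖ * ρ ^ n < ‖p.eval b₀‖` for `n ≥ 1`.  Put `h = b - b₀`,
  `‖h‖ = ρ` (`HR.norm_sub_of_closer`).  `taylor b p = taylor h (taylor b₀ p)` (`Polynomial.taylor_taylor`), so
  `(taylor b p).coeff n = ∑_{m ≥ n} choose(m, n) (taylor b₀ p).coeff m * h ^ (m - n)` and, the integers having
  norm `≤ 1`, for `n ≥ 1` we get
  `‖(taylor b p).coeff n‖ * ρ ^ n ≤ max_{m ≥ n} ‖(taylor b₀ p).coeff m‖ * ρ ^ m < ‖p.eval b₀‖`, and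
  `‖p.eval b - p.eval b₀‖ ≤ max_{m ≥ 1} ‖(taylor b₀ p).coeff m‖ * ρ ^ m < ‖p.eval b₀‖`, so
  `‖p.eval b‖ = ‖p.eval b₀‖`.  (The file HR/T4L.lean has `norm_taylor_closer` and other lemmas on the
  coefficients of `taylor` at closer points: use them if they fit.)
-/

open IsLocalRing Polynomial

namespace TA
open Pool.Agent.Lib.MP_3029eb_ag Pool.Agent.Lib.MP_3029eb_ag.Abh

variable {F : Type} [NormedField F] [IsUltrametricDist F] {L : Subfield F} {y : F}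

theorem t4_eval_ne (hT : HR.T4 L y) {p : F[X]} (hp : HR.PolyIn L p) (h0 : p ≠ 0) :
    p.eval y ≠ 0 := (hT.stable hp h0).1

omit [IsUltrametricDist F] in
theorem expand_at {b c : F} (hc : c ≠ 0) {p : F[X]} (hb : p.eval b ≠ 0) :
    p.eval y = p.eval b * (1 + ∑ n ∈ Finset.Icc 1 p.natDegree,
      ((taylor b p).coeff n * c ^ n / p.eval b) * ((y - b) / c) ^ n) := by
  have h1 : p.eval y = (taylor b p).eval (y - b) := by rw [taylor_eval, sub_add_cancel]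
  have h2 : Finset.range ((taylor b p).natDegree + 1) =
      insert 0 (Finset.Icc 1 p.natDegree) := by
    rw [natDegree_taylor]
    ext n
    simp only [Finset.mem_range, Finset.mem_insert, Finset.mem_Icc]
    omega
  rw [h1, eval_eq_sum_range, h2, Finset.sum_insert (by simp), taylor_coeff_zero, pow_zero, mul_one,
    mul_add, mul_one, Finset.mul_sum]
  congr 1
  refine Finset.sum_congr rfl fun n _ => ?_
  rw [div_pow]
  field_simp

omit [IsUltrametricDist F] in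
private theorem rec_closest (P : Finset F[X]) (f : F[X] → F) (hf : ∀ p ∈ P, f p ∈ L) :
    ∃ b ∈ L, ∀ p ∈ P, ‖y - b‖ ≤ ‖y - f p‖ := by
  classical
  induction P using Finset.induction_on with
  | empty => exact ⟨0, L.zero_mem, fun p hp => absurd hp (Finset.notMem_empty p)⟩
  | insert a s ha ih =>
    obtain ⟨b, hb, h⟩ := ih fun p hp => hf p (Finset.mem_insert_of_mem hp)
    rcases le_total ‖y - b‖ ‖y - f a‖ with h1 | h1
    · refine ⟨b, hb, fun p hp => ?_⟩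
      rcases Finset.mem_insert.1 hp with rfl | hp
      · exact h1
      · exact h p hp
    · refine ⟨f a, hf a (Finset.mem_insert_self _ _), fun p hp => ?_⟩
      rcases Finset.mem_insert.1 hp with rfl | hp
      · exact le_rfl
      · exact h1.trans (h p hp)

omit [IsUltrametricDist F] in
private theorem rec_max {h : F[X]} {s M : ℝ} (hs : 0 ≤ s)
    (hlt : ∀ n, 1 ≤ n → ‖h.coeff n‖ * s ^ n < M) :
    ∃ N < M, ∀ m, 1 ≤ m → ‖h.coeff m‖ * s ^ m ≤ N := by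
  obtain ⟨m₀, hm₀, hmax⟩ := Finset.exists_max_image (Finset.Icc 1 (h.natDegree + 1))
    (fun n => ‖h.coeff n‖ * s ^ n) ⟨1, by simp⟩
  refine ⟨‖h.coeff m₀‖ * s ^ m₀, hlt m₀ (Finset.mem_Icc.1 hm₀).1, fun m hm => ?_⟩
  by_cases h1 : m ≤ h.natDegree + 1
  · exact hmax m (Finset.mem_Icc.2 ⟨hm, h1⟩)
  · rw [coeff_eq_zero_of_natDegree_lt (by omega), norm_zero, zero_mul]
    positivity

theorem recenter (hT : HR.T4 L y) {r : ℕ} {w : Fin r → F}
    (hval : ∀ z : F, z ≠ 0 → ∃ δ : Fin r → ℤ, ‖z‖ = ‖mon w δ‖) (P : Finset F[X])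
    (hP : ∀ p ∈ P, HR.PolyIn L p ∧ p ≠ 0) :
    ∃ (δ : Fin r → ℤ) (b : F), b ∈ L ∧ ‖y - b‖ < ‖mon w δ‖ ∧
      ∀ p ∈ P, p.eval b ≠ 0 ∧
        ∀ n, 1 ≤ n → ‖(taylor b p).coeff n‖ * ‖mon w δ‖ ^ n < ‖p.eval b‖ := by
  classical
  have hst : ∀ p : F[X], ∃ bp : F, p ∈ P → p.eval y ≠ 0 ∧ bp ∈ L ∧ ∀ b ∈ L,
      ‖y - b‖ ≤ ‖y - bp‖ → ‖p.eval b‖ = ‖p.eval y‖ ∧
      ∀ n, 1 ≤ n → ‖(taylor b p).coeff n‖ * ‖y - b‖ ^ n < ‖p.eval y‖ := by
    intro p
    by_cases hp : p ∈ P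
    · obtain ⟨h1, b₀, h2, h3⟩ := hT.stable (hP p hp).1 (hP p hp).2
      exact ⟨b₀, fun _ => ⟨h1, h2, h3⟩⟩
    · exact ⟨0, fun h => absurd h hp⟩
  choose f hf using hst
  obtain ⟨b₀, hb₀, hb₀P⟩ := rec_closest (y := y) P f fun p hp => (hf p hp).2.1
  have hpos : 0 < ‖y - b₀‖ := hT.pos hb₀
  obtain ⟨δ, hδ⟩ := hval (y - b₀) (norm_pos_iff.1 hpos)
  obtain ⟨b, hb, hlt⟩ := hT.imm b₀ hb₀
  refine ⟨δ, b, hb, by rw [← hδ]; exact hlt, fun p hp => ?_⟩
  obtain ⟨h1, -, h3⟩ := hf p hp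
  have hbb := (h3 b hb (hlt.le.trans (hb₀P p hp))).1
  refine ⟨?_, fun n hn => ?_⟩
  · intro h0
    rw [h0, norm_zero] at hbb
    exact h1 (norm_eq_zero.1 hbb.symm)
  · obtain ⟨N, hNM, hN⟩ := rec_max hpos.le (h3 b₀ hb₀ (hb₀P p hp)).2
    rw [← hδ, hbb]
    exact (HR.norm_taylor_closer hpos hlt.le fun m hm => hN m (hn.trans hm)).trans_lt hNM

end TA
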