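import Pool.Agent.Lib.TA.Adj
import Pool.Agent.Lib.TA.Perr
import Pool.Agent.Lib.TA.Rec
import Pool.Agent.Lib.MP_1a953e_ag.Lin4

/-!
# Module TA.ChLy: charts of `L (y)` monomializing a finite set

PROOFS.
* `mem_adj_poly`: `adj L y = L ⊔ closure {y}`; the set of all quotients `p(y) / q(y)`, `p, q` over `L`,
  `q(y) ≠ 0`, is a field containing `L` and `y` (`Subfield.closure_induction`, or
  `IntermediateField.mem_adjoin_simple_iff`; compare `MP1a953e.mem_adj_iff`).
* `mem_adj_gring`: the field `adj L y` is generated by `k ∪ gens ∪ {y}`, so it is the field of fractions of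
  `gring k (gens ∪ {y})` (apply `mem_L_iff` to the finite set `insert y gens` and the field `adj L y`).
* `gring_le_L`, `chart_le_L`: clear.
* `den_mono`: `Den.mono`: `D ∈ A0 ≤ A0'`, `MonV.mono`.
* `chart_Ly`: common denominator: there are `q` over `L` with `q(y) ≠ 0` and `p x` over `L` with
  `x * q(y) = (p x)(y)` for all `x ∈ X`; `p x ≠ 0` because `x ≠ 0`; and `x / x' = (p x)(y) / (p x')(y)`.
  `recenter` for the finite set of the `p x`: `δ`, `b ∈ L`, `c := mon w δ` (`c ≠ 0`, `c ∈ L` because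
  `w i ∈ chart k gens ⊆ L`).  Write `b * b2 = b1` with `b1, b2 ∈ gring k gens`, `b2 ≠ 0` (`mem_L_iff`).
  Let `XL` be the finite set of: `1`, `b2`, the `(p x).eval b` (nonzero), and the nonzero ones among
  `(taylor b (p x)).coeff n * c ^ n`, `1 ≤ n ≤ natDegree`, `x ∈ X`.  All are nonzero elements of `L`.
  `chart_L` gives `u'` and `A2 = chart k (gens ∪ range u')`.  `A2 ⊆ L` (`u' i ∈ L` by its denominator).
  `Y := (y - b) / c`, `‖Y‖ < 1`.  `Y` is transcendental over `A2`: let `f ≠ 0` in `A2[X]`, then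
  `p = (f.map A2.subtype).comp (C c⁻¹ * (X - C b))` is a nonzero polynomial over `L`
  (`Polynomial.comp_eq_zero_iff`; the inner polynomial is not constant) and `p(y) = f(Y)`; use
  `t4_eval_ne D.t4`.  So `par_adjoin` applies; `chart_union` identifies the ring with
  `A3 = chart k (gens ∪ range u' ∪ {Y})`.
  For `x ∈ X`: `expand_at` gives `(p x)(y) = (p x)(b) * U x`, where `U x = 1 + ∑_{n ≥ 1} λ n * Y ^ n`, the
  `λ n = (taylor b (p x)).coeff n * c ^ n / (p x)(b)` are zero or `MonV` in `A2` (norm `< 1` by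
  `recenter`, both numerator and denominator are in `XL`), so in `A2`; so `U x ∈ A3`, and `‖U x‖ = 1`.  So
  `x / x' = ((p x)(b) / (p x')(b)) * (U x * (U x')⁻¹)`, where `‖x‖ ≤ ‖x'‖` iff `‖(p x)(b)‖ ≤ ‖(p x')(b)‖`,
  and the first factor is `MonV` in `A2`, so in `A3` (`MonV.mono`, `MonV.var`), the second a unit of `A3`.
  DENOMINATORS: `u' i`: `den_mono`.  `Y`: let `p⁺ i = (δ i).toNat`, `p⁻ i = (- δ i).toNat`, then
  `c * monN w p⁻ = monN w p⁺` and `Y * (b2 * monN w p⁺) = (y * b2 - b1) * monN w p⁻`; `Den.div`, where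
  `b2 = b2 / 1` is `MonV` (`‖b2‖ ≤ 1`), `monN w _` is `MonV`, the factors have denominators
  (`Den.of_mem`, `den_chart`, `den_mono`, `Den.mul`).
-/

open IsLocalRing Polynomial

namespace TA
open Pool.Agent.Lib.MP_3029eb_ag Pool.Agent.Lib.MP_3029eb_ag.Abh

variable {F : Type} [NormedField F] [IsUltrametricDist F] {k L : Subfield F} {gens : Finset F}
  {r : ℕ} {w : Fin r → F} {y th : F}

omit [IsUltrametricDist F] in
theorem mem_adj_poly {z : F} : z ∈ MP1a953e.adj L y ↔
    ∃ p q : F[X], HR.PolyIn L p ∧ HR.PolyIn L q ∧ q.eval y ≠ 0 ∧ z * q.eval y = p.eval y := by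
  have hmap : ∀ r : L[X], HR.PolyIn L (r.map (algebraMap L F)) := by
    intro r n
    rw [coeff_map]
    exact (r.coeff n).2
  constructor
  · intro hz
    rw [MP1a953e.mem_adj_iff, IntermediateField.mem_adjoin_simple_iff] at hz
    obtain ⟨r, s, hrs⟩ := hz
    by_cases h0 : aeval y s = 0
    · refine ⟨C 0, C 1, HR.polyIn_C L.zero_mem, HR.polyIn_C L.one_mem, ?_, ?_⟩
      · rw [eval_C]; exact one_ne_zero
      · rw [eval_C, eval_C, hrs, h0, div_zero, zero_mul]
    · refine ⟨r.map (algebraMap L F), s.map (algebraMap L F), hmap r, hmap s, ?_, ?_⟩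
      · rw [eval_map_algebraMap]; exact h0
      · rw [eval_map_algebraMap, eval_map_algebraMap, hrs, div_mul_cancel₀ _ h0]
  · rintro ⟨p, q, hp, hq, h0, h⟩
    have hle := MP1a953e.le_adj L y
    have h1 : p.eval y ∈ MP1a953e.adj L y :=
      HR.eval_mem (fun n => hle (hp n)) (MP1a953e.mem_adj_self L y)
    have h2 : q.eval y ∈ MP1a953e.adj L y :=
      HR.eval_mem (fun n => hle (hq n)) (MP1a953e.mem_adj_self L y)
    have h3 : z = p.eval y / q.eval y := by rw [eq_div_iff h0, h]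
    rw [h3]
    exact (MP1a953e.adj L y).div_mem h1 h2

theorem mem_adj_gring (hL : L = k ⊔ Subfield.closure (gens : Set F)) {z : F} :
    z ∈ MP1a953e.adj L y ↔ ∃ a ∈ gring k ((gens : Set F) ∪ {y}),
      ∃ b ∈ gring k ((gens : Set F) ∪ {y}), b ≠ 0 ∧ z * b = a := by
  classical
  have h1 : (((insert y gens : Finset F)) : Set F) = (gens : Set F) ∪ {y} := by
    rw [Finset.coe_insert, Set.union_comm]; rfl
  have h2 : MP1a953e.adj L y = k ⊔ Subfield.closure ((insert y gens : Finset F) : Set F) := by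
    rw [h1, Subfield.closure_union, ← sup_assoc, ← hL]
    rfl
  have h3 := mem_L_iff (k := k) (gens := insert y gens) h2 (z := z)
  rw [h1] at h3
  exact h3

theorem den_mono {A0 A0' A A' : Subring F} (h0 : A0 ≤ A0') (h : A ≤ A') {u u' : Fin r → F}
    (hu : ∀ i, MonV (ball F) A' u' (u i)) {z : F} (hz : Den (ball F) A0 A u z) :
    Den (ball F) A0' A' u' z := by
  obtain ⟨D, hD, hM, hDz⟩ := hz
  exact ⟨D, h0 hD, hM.mono h hu, h0 hDz⟩

omit [IsUltrametricDist F] in
private theorem chly_gring_le (hL : L = k ⊔ Subfield.closure (gens : Set F)) :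
    gring k (gens : Set F) ≤ L.toSubring := by
  rw [gring, Subring.closure_le, Set.union_subset_iff]
  constructor
  · intro x hx
    show x ∈ L
    rw [hL]
    exact (le_sup_left : k ≤ k ⊔ Subfield.closure (gens : Set F)) hx
  · intro x hx
    show x ∈ L
    rw [hL]
    exact (le_sup_right : Subfield.closure (gens : Set F) ≤ k ⊔ Subfield.closure (gens : Set F))
      (Subfield.subset_closure hx)

private theorem chly_chart_le {s : Set F} (hk : (k : Set F) ⊆ L) (hs : s ⊆ L) :
    ∀ z ∈ chart k s, z ∈ L := by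
  rintro z ⟨a, ha, b, hb, hb1, hab⟩
  have h1 : gring k s ≤ L.toSubring := by
    rw [gring, Subring.closure_le, Set.union_subset_iff]
    exact ⟨hk, hs⟩
  have hb0 : b ≠ 0 := by
    rintro rfl
    rw [map_zero] at hb1
    exact zero_ne_one hb1
  have h2 : z = a / b := by rw [eq_div_iff hb0, hab]
  rw [h2]
  exact L.div_mem (h1 ha) (h1 hb)

omit [IsUltrametricDist F] in
private theorem chly_mon_mem (hw : ∀ i, w i ∈ L) (δ : Fin r → ℤ) : mon w δ ∈ L := by
  unfold mon
  exact L.prod_mem fun i _ => L.zpow_mem (hw i) _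

omit [IsUltrametricDist F] in
private theorem chly_mon_split (hw : ∀ i, w i ≠ 0) (δ : Fin r → ℤ) :
    mon w δ * monN w (fun i => (-δ i).toNat) = monN w (fun i => (δ i).toNat) := by
  unfold mon monN
  rw [← Finset.prod_mul_distrib]
  refine Finset.prod_congr rfl fun i _ => ?_
  rw [← zpow_natCast, ← zpow_natCast, ← zpow_add₀ (hw i)]
  congr 1
  dsimp only
  omega

private theorem chly_monv_monN {A : Subring F} {u : Fin r → F}
    (h : ∀ i, MonV (ball F) A u (w i)) (β : Fin r → ℕ) : MonV (ball F) A u (monN w β) := by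
  unfold monN
  exact MonV.prod _ _ fun i _ => (h i).pow _

/-- the unit `1 + ∑ λ n Y ^ n` -/
private theorem chly_unit {A3 : Subring F} {Y : F} (hY : Y ∈ A3) (hY1 : ‖Y‖ < 1)
    (lam : ℕ → F) (N : ℕ) (hl : ∀ n ∈ Finset.Icc 1 N, lam n ∈ A3)
    (hl1 : ∀ n ∈ Finset.Icc 1 N, ‖lam n‖ < 1) :
    (1 + ∑ n ∈ Finset.Icc 1 N, lam n * Y ^ n) ∈ A3 ∧
      ‖1 + ∑ n ∈ Finset.Icc 1 N, lam n * Y ^ n‖ = 1 := by
  constructor
  · exact A3.add_mem A3.one_mem (A3.sum_mem fun n hn => A3.mul_mem (hl n hn) (A3.pow_mem hY n))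
  · have h1 : ‖∑ n ∈ Finset.Icc 1 N, lam n * Y ^ n‖ < 1 := by
      have hgen : ∀ s : Finset ℕ, (∀ n ∈ s, ‖lam n * Y ^ n‖ < 1) →
          ‖∑ n ∈ s, lam n * Y ^ n‖ < 1 := by
        intro s
        induction s using Finset.induction_on with
        | empty => intro _; simp
        | insert a s ha ih =>
          intro h
          rw [Finset.sum_insert ha]
          exact (IsUltrametricDist.norm_add_le_max _ _).trans_lt
            (max_lt (h a (Finset.mem_insert_self _ _))
              (ih fun n hn => h n (Finset.mem_insert_of_mem hn)))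
      refine hgen _ fun n hn => ?_
      rw [norm_mul, norm_pow]
      calc ‖lam n‖ * ‖Y‖ ^ n ≤ ‖lam n‖ * 1 := by
            refine mul_le_mul_of_nonneg_left ?_ (norm_nonneg _)
            exact pow_le_one₀ (norm_nonneg _) hY1.le
        _ < 1 := by rw [mul_one]; exact hl1 n hn
    have h2 : ‖(1 : F)‖ ≠ ‖∑ n ∈ Finset.Icc 1 N, lam n * Y ^ n‖ := by
      rw [norm_one]; exact h1.ne'
    rw [IsUltrametricDist.norm_add_eq_max_of_norm_ne_norm h2, norm_one, max_eq_left h1.le]

theorem chart_Ly (D : TAData k gens w L y th) (X : Finset F)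
    (hX : ∀ x ∈ X, x ∈ MP1a953e.adj L y ∧ x ≠ 0) :
    ∃ (u' : Fin r → F) (Y : F),
      Par (chart k ((gens : Set F) ∪ Set.range u' ∪ {Y})) u' {Y} ∧
      (∀ t ∈ Set.range u' ∪ {Y}, Den (ball F) (gring k ((gens : Set F) ∪ {y}))
        (chart k ((gens : Set F) ∪ Set.range u' ∪ {Y})) u' t) ∧
      ∀ x ∈ X, ∀ x' ∈ X, ‖x‖ ≤ ‖x'‖ →
        MonV (ball F) (chart k ((gens : Set F) ∪ Set.range u' ∪ {Y})) u' (x / x') := by
  classical
  have hL := D.hL
  have hkL : (k : Set F) ⊆ L := by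
    intro x hx
    show x ∈ L
    rw [hL]
    exact (le_sup_left : k ≤ k ⊔ Subfield.closure (gens : Set F)) hx
  have hgL : (gens : Set F) ⊆ L := fun x hx =>
    chly_gring_le hL (subset_gring k (gens : Set F) hx)
  have hwL : ∀ i, w i ∈ L := fun i => chly_chart_le hkL hgL _ (D.par.mem i)
  have hw0 : ∀ i, w i ≠ 0 := D.par.ind.ne
  -- polynomials
  have hpq : ∀ x : F, ∃ pq : F[X] × F[X], x ∈ X → HR.PolyIn L pq.1 ∧ HR.PolyIn L pq.2 ∧
      pq.2.eval y ≠ 0 ∧ x * pq.2.eval y = pq.1.eval y := by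
    intro x
    by_cases hx : x ∈ X
    · obtain ⟨p, q, h1, h2, h3, h4⟩ := mem_adj_poly.1 (hX x hx).1
      exact ⟨(p, q), fun _ => ⟨h1, h2, h3, h4⟩⟩
    · exact ⟨(0, 0), fun h => absurd h hx⟩
  choose pq hpq using hpq
  set Nn : F → F → F[X] := fun x x' => (pq x).1 * (pq x').2 with hNn
  set P : Finset F[X] := (X ×ˢ X).image (fun t => Nn t.1 t.2) with hPdef
  have hNP : ∀ x ∈ X, ∀ x' ∈ X, Nn x x' ∈ P := fun x hx x' hx' =>
    Finset.mem_image.2 ⟨(x, x'), Finset.mem_product.2 ⟨hx, hx'⟩, rfl⟩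
  have hNeval : ∀ x ∈ X, ∀ x' ∈ X, (Nn x x').eval y =
      x * ((pq x).2.eval y * (pq x').2.eval y) := by
    intro x hx x' _
    rw [hNn]
    simp only [eval_mul]
    rw [← (hpq x hx).2.2.2]
    ring
  have hN0 : ∀ x ∈ X, ∀ x' ∈ X, (Nn x x').eval y ≠ 0 := by
    intro x hx x' hx'
    rw [hNeval x hx x' hx']
    exact mul_ne_zero (hX x hx).2 (mul_ne_zero (hpq x hx).2.2.1 (hpq x' hx').2.2.1)
  have hP : ∀ p ∈ P, HR.PolyIn L p ∧ p ≠ 0 := by
    intro p hp
    obtain ⟨⟨x, x'⟩, hxx, rfl⟩ := Finset.mem_image.1 hp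
    obtain ⟨hx, hx'⟩ := Finset.mem_product.1 hxx
    refine ⟨HR.polyIn_mul (hpq x hx).1 (hpq x' hx').2.1, ?_⟩
    intro h0
    refine hN0 x hx x' hx' ?_
    have h0' : Nn x x' = 0 := h0
    rw [h0', eval_zero]
  obtain ⟨δ, b, hbL, hyb, hrec⟩ := recenter D.t4 D.val P hP
  set c : F := mon w δ with hc
  have hcL : c ∈ L := chly_mon_mem hwL δ
  have hc0 : c ≠ 0 := by
    rw [← norm_pos_iff]
    exact (norm_nonneg _).trans_lt hyb
  have hcpos : 0 < ‖c‖ := norm_pos_iff.2 hc0
  obtain ⟨b1, hb1, b2, hb2, hb20, hbb⟩ := (mem_L_iff hL).1 hbL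
  set T : Finset F := ({1, b2} : Finset F) ∪
    P.biUnion (fun p => (Finset.range (p.natDegree + 1)).image
      (fun n => (taylor b p).coeff n * c ^ n)) with hT
  set XL : Finset F := T.filter (fun t => t ≠ 0) with hXL
  have hcoef : ∀ p ∈ P, ∀ n ≤ p.natDegree, (taylor b p).coeff n * c ^ n ∈ T := by
    intro p hp n hn
    exact Finset.mem_union_right _ (Finset.mem_biUnion.2 ⟨p, hp, Finset.mem_image.2
      ⟨n, Finset.mem_range.2 (by omega), rfl⟩⟩)
  have hevT : ∀ p ∈ P, p.eval b ∈ XL := by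
    intro p hp
    have h1 := hcoef p hp 0 (Nat.zero_le _)
    rw [pow_zero, mul_one, taylor_coeff_zero] at h1
    exact Finset.mem_filter.2 ⟨h1, (hrec p hp).1⟩
  have hXLL : ∀ x ∈ XL, x ∈ L ∧ x ≠ 0 := by
    intro x hx
    obtain ⟨hxT, hx0⟩ := Finset.mem_filter.1 hx
    refine ⟨?_, hx0⟩
    rcases Finset.mem_union.1 hxT with h | h
    · rcases Finset.mem_insert.1 h with rfl | h
      · exact L.one_mem
      · rw [Finset.mem_singleton.1 h]
        exact chly_gring_le hL hb2
    · obtain ⟨p, hp, h⟩ := Finset.mem_biUnion.1 h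
      obtain ⟨n, _, rfl⟩ := Finset.mem_image.1 h
      exact L.mul_mem (HR.polyIn_taylor (hP p hp).1 hbL n) (L.pow_mem hcL n)
  obtain ⟨u', hPar2, hwM, hDen, hMon⟩ := chart_L D.par hL XL hXLL
  set A2 : Subring F := chart k ((gens : Set F) ∪ Set.range u') with hA2
  have hg2 : gring k (gens : Set F) ≤ A2 :=
    (gring_mono k Set.subset_union_left).trans (gring_le_chart k _)
  have hu'0 : ∀ i, u' i ≠ 0 := hPar2.ind.ne
  have hu'L : ∀ i, u' i ∈ L := by
    intro i
    obtain ⟨E, hE, hEM, hEu⟩ := hDen i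
    have hE0 : E ≠ 0 := hEM.ne hu'0
    have h1 : u' i = (E * u' i) / E := by field_simp
    rw [h1]
    exact L.div_mem (chly_gring_le hL hEu) (chly_gring_le hL hE)
  have hA2L : ∀ z ∈ A2, z ∈ L := by
    refine chly_chart_le hkL (Set.union_subset hgL ?_)
    rintro _ ⟨i, rfl⟩
    exact hu'L i
  set Y : F := (y - b) / c with hY
  have hY1 : ‖Y‖ < 1 := by
    rw [hY, norm_div, div_lt_one hcpos]; exact hyb
  have htr : ∀ f : A2[X], f ≠ 0 → f.eval₂ A2.subtype Y ≠ 0 := by
    intro f hf h0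
    set g : F[X] := f.map A2.subtype with hg
    have hg0 : g ≠ 0 := (Polynomial.map_ne_zero_iff Subtype.val_injective).2 hf
    set l : F[X] := C c⁻¹ * (Polynomial.X - C b) with hl
    have hgL' : HR.PolyIn L g := by
      intro n
      rw [hg, coeff_map]
      exact hA2L _ (f.coeff n).2
    have hlL : HR.PolyIn L l :=
      HR.polyIn_mul (HR.polyIn_C (L.inv_mem hcL)) (HR.polyIn_sub HR.polyIn_X (HR.polyIn_C hbL))
    have hcomp : g.comp l ≠ 0 := by
      intro h1
      rcases Polynomial.comp_eq_zero_iff.1 h1 with h2 | ⟨_, h2⟩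
      · exact hg0 h2
      · have h3 := congrArg (fun q : F[X] => q.coeff 1) h2
        simp only [hl, coeff_C_mul, coeff_sub, coeff_X_one, coeff_C_succ, sub_zero, mul_one]
          at h3
        exact inv_ne_zero hc0 h3
    have h4 := t4_eval_ne D.t4 (HR.polyIn_comp hgL' hlL) hcomp
    apply h4
    rw [eval_comp]
    have h5 : l.eval y = Y := by
      rw [hl, hY, eval_mul, eval_C, eval_sub, eval_X, eval_C, div_eq_inv_mul]
    rw [h5, hg, eval_map]
    exact h0
  have hPar3 := par_adjoin hPar2 hY1 htr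
  rw [hA2, chart_union] at hPar3
  set A3 : Subring F := chart k ((gens : Set F) ∪ Set.range u' ∪ {Y}) with hA3
  have hA23 : A2 ≤ A3 := chart_mono k Set.subset_union_left
  have hYA3 : Y ∈ A3 := gring_le_chart k _ (subset_gring k _ (Or.inr rfl))
  have hvar : ∀ i, MonV (ball F) A3 u' (u' i) := fun i => MonV.var i
  -- the units
  have hunit : ∀ p ∈ P, ∃ U ∈ A3, ‖U‖ = 1 ∧ p.eval y = p.eval b * U := by
    intro p hp
    have h1 := expand_at (y := y) hc0 (hrec p hp).1
    have h2 : ∀ n ∈ Finset.Icc 1 p.natDegree,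
        ‖(taylor b p).coeff n * c ^ n / p.eval b‖ < 1 := by
      intro n hn
      rw [norm_div, div_lt_one (norm_pos_iff.2 (hrec p hp).1), norm_mul, norm_pow]
      exact (hrec p hp).2 n (Finset.mem_Icc.1 hn).1
    have h3 : ∀ n ∈ Finset.Icc 1 p.natDegree,
        (taylor b p).coeff n * c ^ n / p.eval b ∈ A3 := by
      intro n hn
      by_cases h0 : (taylor b p).coeff n * c ^ n = 0
      · rw [h0, zero_div]; exact A3.zero_mem
      · have h4 : (taylor b p).coeff n * c ^ n ∈ XL :=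
          Finset.mem_filter.2 ⟨hcoef p hp n (Finset.mem_Icc.1 hn).2, h0⟩
        have h5 := hMon _ h4 _ (hevT p hp) (by
          have h6 := h2 n hn
          rw [norm_div, div_lt_one (norm_pos_iff.2 (hrec p hp).1)] at h6
          exact h6.le)
        exact hA23 (h5.mem hPar2.mem)
    obtain ⟨h7, h8⟩ := chly_unit hYA3 hY1
      (fun n => (taylor b p).coeff n * c ^ n / p.eval b) p.natDegree h3 h2
    exact ⟨_, h7, h8, h1⟩
  refine ⟨u', Y, hPar3, ?_, ?_⟩
  · rintro t (⟨i, rfl⟩ | ht)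
    · exact den_mono (gring_mono k Set.subset_union_left) hA23 hvar (hDen i)
    · have hty : t = Y := ht
      rw [hty]
      set βp : Fin r → ℕ := fun i => (δ i).toNat with hβp
      set βm : Fin r → ℕ := fun i => (-δ i).toNat with hβm
      have hsplit : c * monN w βm = monN w βp := chly_mon_split hw0 δ
      have hg3 : gring k (gens : Set F) ≤ A3 := hg2.trans hA23
      have hgy : gring k (gens : Set F) ≤ gring k ((gens : Set F) ∪ {y}) :=
        gring_mono k Set.subset_union_left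
      have hwc : ∀ β : Fin r → ℕ, Den (ball F) (gring k ((gens : Set F) ∪ {y})) A3 u'
          (monN w β) := fun β =>
        den_mono hgy le_rfl hvar (den_chart (A := A3) hg3 (E0_monN_mem _ D.par.mem β))
      have hwM3 : ∀ β : Fin r → ℕ, MonV (ball F) A3 u' (monN w β) := fun β =>
        (chly_monv_monN hwM β).mono hA23 hvar
      have hb2M : MonV (ball F) A3 u' b2 := by
        have h1 : (1 : F) ∈ XL := Finset.mem_filter.2
          ⟨Finset.mem_union_left _ (Finset.mem_insert_self _ _), one_ne_zero⟩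
        have h2 : b2 ∈ XL := Finset.mem_filter.2
          ⟨Finset.mem_union_left _ (Finset.mem_insert_of_mem (Finset.mem_singleton_self _)), hb20⟩
        have h3 : ‖b2‖ ≤ ‖(1 : F)‖ := by
          rw [norm_one]
          exact D.par.le (gring_le_chart k _ hb2)
        have h4 := hMon b2 h2 1 h1 h3
        rw [div_one] at h4
        exact h4.mono hA23 hvar
      have hyg : y ∈ gring k ((gens : Set F) ∪ {y}) := subset_gring k _ (Or.inr rfl)
      refine Den.div (a := (y * b2 - b1) * monN w βm) (d := b2 * monN w βp) ?_ ?_ ?_ ?_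
      · refine Den.mul (Den.of_mem ?_) (hwc βm)
        exact Subring.sub_mem _ (Subring.mul_mem _ hyg (hgy hb2)) (hgy hb1)
      · exact Den.mul (Den.of_mem (hgy hb2)) (hwc βp)
      · exact hb2M.mul (hwM3 βp)
      · rw [← hsplit, ← hbb, hY]
        field_simp
  · intro x hx x' hx' hle
    obtain ⟨U, hUA, hU1, hUe⟩ := hunit _ (hNP x hx x' hx')
    obtain ⟨U', hUA', hU1', hUe'⟩ := hunit _ (hNP x' hx' x hx)
    have hU0 : U' ≠ 0 := by
      rw [← norm_ne_zero_iff, hU1']; exact one_ne_zero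
    have hb0 := (hrec _ (hNP x' hx' x hx)).1
    have hx'0 := (hX x' hx').2
    have hqq : (pq x).2.eval y * (pq x').2.eval y ≠ 0 :=
      mul_ne_zero (hpq x hx).2.2.1 (hpq x' hx').2.2.1
    have e1 : x / x' = (Nn x x').eval y / (Nn x' x).eval y := by
      rw [hNeval x hx x' hx', hNeval x' hx' x hx]
      rw [mul_comm ((pq x').2.eval y) ((pq x).2.eval y), mul_div_mul_right _ _ hqq]
    have e2 : x / x' = ((Nn x x').eval b / (Nn x' x).eval b) * (U * U'⁻¹) := by
      rw [e1, hUe, hUe']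
      field_simp
    have hle' : ‖(Nn x x').eval b‖ ≤ ‖(Nn x' x).eval b‖ := by
      have h1 : ‖x / x'‖ ≤ 1 := by
        rw [norm_div]
        exact div_le_one_of_le₀ hle (norm_nonneg _)
      rw [e2, norm_mul, norm_mul, norm_inv, hU1, hU1', inv_one, mul_one, mul_one, norm_div,
        div_le_one (norm_pos_iff.2 hb0)] at h1
      exact h1
    rw [e2]
    refine MonV.mul ((hMon _ (hevT _ (hNP x hx x' hx')) _ (hevT _ (hNP x' hx' x hx)) hle').mono
      hA23 hvar) (MonV.of_unit (A3.mul_mem hUA (hPar3.inv_mem hUA' hU1')) ?_)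
    rw [val_eq_one_iff, norm_mul, norm_inv, hU1, hU1', inv_one, mul_one]

end TA
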