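import Pool.Agent.Lib.MP_3029eb_ag.ImpDefs
import Pool.Agent.Lib.MP_3029eb_ag.RB
import Pool.Agent.Lib.HR.GDefs

/-!
# Local uniformization over Abhyankar coefficient fields, corank one: definitions

`F` is an ultrametric field, `ball F` its unit ball (a valuation ring), `k` a trivially normed
subfield.  `locV V A` (H44Defs) is the localization of `A` at the elements of value one, `Indep u`
(AbhDefs) says that the norms of the `u i` are `< 1` and multiplicatively independent, `MonV V A u f`
(AbhE0) says that `f` is a unit of `A` (an element of norm one) times a monomial in the `u i`.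
-/

open IsLocalRing Polynomial

namespace TA
open Pool.Agent.Lib.MP_3029eb_ag Pool.Agent.Lib.MP_3029eb_ag.Abh

variable {F : Type} [NormedField F] [IsUltrametricDist F]

/-- `A` is a regular local ring contained in the unit ball, `A` is dominated by the unit ball, its
maximal ideal is generated by the `u i` and the elements of `gs`, the dimension is the number of these
elements, and the norms of the `u i` are independent. -/
structure Par (A : Subring F) {r : ℕ} (u : Fin r → F) (gs : Finset F) : Prop where
  le : A ≤ (ball F).toSubring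
  loc : locV (ball F) A = A
  ind : Indep u
  mem : ∀ i, u i ∈ A
  gmem : ∀ y ∈ gs, y ∈ A
  glt : ∀ y ∈ gs, ‖y‖ < 1
  gen : ∀ z ∈ A, ‖z‖ < 1 → ∃ (c : Fin r → F) (d : F → F), (∀ i, c i ∈ A) ∧
    (∀ y, d y ∈ A) ∧ z = ∑ i, c i * u i + ∑ y ∈ gs, d y * y
  reg : IsRegularLocalRing A
  dim : ringKrullDim A = (((gs.card + r : ℕ) : ℕ∞) : WithBot ℕ∞)

/-- the ring generated by the field `k` and the set `s` -/
def gring (k : Subfield F) (s : Set F) : Subring F := Subring.closure ((k : Set F) ∪ s)

/-- the chart: localization of the ring generated by the field `k` and the set `s` -/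
def chart (k : Subfield F) (s : Set F) : Subring F := locV (ball F) (gring k s)

/-- The input of the local uniformization: `k` is trivially normed, the chart `chart k gens` of the
coefficient field `L` is regular with parameters `w`, the norms of the `w i` generate the value group
of `F`, `L` has the residue field of `F`, the point `y` is of type four over `L` (or
a transcendental element of the completion), the field `L (y)` is dense in `F` and `F` is a finite
separable extension of `L (y)` generated by `th`. -/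
structure TAData (k : Subfield F) (gens : Finset F) {r : ℕ} (w : Fin r → F) (L : Subfield F)
    (y th : F) : Prop where
  pos : 0 < r
  triv : ∀ x ∈ k, x ≠ 0 → ‖x‖ = 1
  par : Par (chart k (gens : Set F)) w ∅
  hL : L = k ⊔ Subfield.closure (gens : Set F)
  val : ∀ z : F, z ≠ 0 → ∃ δ : Fin r → ℤ, ‖z‖ = ‖mon w δ‖
  t4 : HR.T4 L y
  dense : ∀ x : F, ∀ ε : ℝ, 0 < ε → ∃ a ∈ MP1a953e.adj L y, ‖x - a‖ < ε
  sep : IsSeparable (MP1a953e.adj L y) th
  gen : ∀ z : F, ∃ h : F[X], HR.PolyIn (MP1a953e.adj L y) h ∧ h.eval th = z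

section api

variable {A : Subring F} {r : ℕ} {u : Fin r → F} {gs : Finset F}

theorem val_eq_one_iff (z : F) : (ball F).valuation z = 1 ↔ ‖z‖ = 1 := J7_val_one_iff z

theorem Par.inv_mem (h : Par A u gs) {z : F} (hz : z ∈ A) (h1 : ‖z‖ = 1) : z⁻¹ ∈ A := by
  have hz0 : z ≠ 0 := by
    rintro rfl
    rw [norm_zero] at h1
    exact zero_ne_one h1
  rw [← h.loc]
  exact ⟨1, A.one_mem, z, hz, (val_eq_one_iff z).2 h1, inv_mul_cancel₀ hz0⟩

theorem isUnit_iff_of_loc (hle : A ≤ (ball F).toSubring) (hloc : locV (ball F) A = A) (z : A) :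
    IsUnit z ↔ ‖(z : F)‖ = 1 := by
  rw [← val_eq_one_iff]
  obtain ⟨z, hz⟩ := z
  constructor
  · intro h
    obtain ⟨w, hw⟩ := h.exists_right_inv
    have hw' : z * (w : F) = 1 := congrArg Subtype.val hw
    have h1 : ‖z‖ ≤ 1 := hle hz
    have h2 : ‖(w : F)‖ ≤ 1 := hle w.2
    have h3 : ‖z‖ * ‖(w : F)‖ = 1 := by rw [← norm_mul, hw', norm_one]
    rw [val_eq_one_iff]
    refine le_antisymm h1 ?_
    by_contra hlt
    push Not at hlt
    have := mul_lt_mul_of_lt_of_le_of_nonneg_of_pos hlt h2 (norm_nonneg _) one_pos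
    rw [h3, one_mul] at this
    exact lt_irrefl _ this
  · intro h
    have h1 : ‖z‖ = 1 := (val_eq_one_iff z).1 h
    have hz0 : z ≠ 0 := by
      rintro rfl
      rw [norm_zero] at h1
      exact zero_ne_one h1
    have hzi : z⁻¹ ∈ A := by
      rw [← hloc]
      exact ⟨1, A.one_mem, z, hz, h, inv_mul_cancel₀ hz0⟩
    exact IsUnit.of_mul_eq_one ⟨z⁻¹, hzi⟩ (Subtype.ext (mul_inv_cancel₀ hz0))

theorem mem_max_iff [IsLocalRing A] (hle : A ≤ (ball F).toSubring) (hloc : locV (ball F) A = A)
    (z : A) : z ∈ maximalIdeal A ↔ ‖(z : F)‖ < 1 := by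
  rw [IsLocalRing.mem_maximalIdeal, mem_nonunits_iff, isUnit_iff_of_loc hle hloc]
  exact ⟨fun h => lt_of_le_of_ne (hle z.2) h, fun h => h.ne⟩

theorem isLocalRing_of_loc (hle : A ≤ (ball F).toSubring) (hloc : locV (ball F) A = A) :
    IsLocalRing A := by
  rw [← hloc]
  exact isLocalRing_locV _ hle

theorem subset_gring (k : Subfield F) (s : Set F) : s ⊆ gring k s :=
  fun _ hz => Subring.subset_closure (Or.inr hz)

theorem le_gring (k : Subfield F) (s : Set F) : (k : Set F) ⊆ gring k s :=
  fun _ hz => Subring.subset_closure (Or.inl hz)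

theorem gring_le_chart (k : Subfield F) (s : Set F) : gring k s ≤ chart k s := le_locV _ _

theorem gring_mono (k : Subfield F) {s t : Set F} (h : s ⊆ t) : gring k s ≤ gring k t :=
  Subring.closure_mono (Set.union_subset_union_right _ h)

theorem chart_mono (k : Subfield F) {s t : Set F} (h : s ⊆ t) : chart k s ≤ chart k t :=
  locV_mono _ (gring_mono k h)

theorem gring_le_iff {k : Subfield F} {s : Set F} {B : Subring F} :
    gring k s ≤ B ↔ (k : Set F) ⊆ B ∧ s ⊆ B := by
  rw [gring, Subring.closure_le, Set.union_subset_iff]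

theorem chart_le {k : Subfield F} {s : Set F} {B : Subring F} (hk : (k : Set F) ⊆ B)
    (hs : s ⊆ B) (hB : locV (ball F) B = B) : chart k s ≤ B := by
  rw [← hB]
  exact locV_mono _ (gring_le_iff.2 ⟨hk, hs⟩)

theorem loc_chart (k : Subfield F) (s : Set F) : locV (ball F) (chart k s) = chart k s :=
  locV_locV _ _

/-- adding generators to a chart -/
theorem chart_union (k : Subfield F) (s t : Set F) :
    locV (ball F) (Subring.closure ((chart k s : Set F) ∪ t)) = chart k (s ∪ t) := by
  rw [chart, locV_closure_locV (le_refl (ball F)), chart, gring, gring]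
  congr 1
  apply le_antisymm
  · rw [Subring.closure_le, Set.union_subset_iff]
    constructor
    · intro z hz
      exact Subring.closure_mono (Set.union_subset_union_right _ Set.subset_union_left) hz
    · exact fun z hz => Subring.subset_closure (Or.inr (Or.inr hz))
  · rw [Subring.closure_le]
    rintro z (hz | hz | hz)
    · exact Subring.subset_closure (Or.inl (Subring.subset_closure (Or.inl hz)))
    · exact Subring.subset_closure (Or.inl (Subring.subset_closure (Or.inr hz)))
    · exact Subring.subset_closure (Or.inr hz)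

theorem gring_le_ball {k : Subfield F} {s : Set F} (hk : ∀ x ∈ k, x ≠ 0 → ‖x‖ = 1)
    (hs : ∀ x ∈ s, ‖x‖ ≤ 1) : gring k s ≤ (ball F).toSubring := by
  rw [gring_le_iff]
  refine ⟨fun x hx => ?_, hs⟩
  show ‖x‖ ≤ 1
  by_cases h : x = 0
  · rw [h, norm_zero]; exact zero_le_one
  · exact (hk x hx h).le

theorem chart_le_ball {k : Subfield F} {s : Set F} (hk : ∀ x ∈ k, x ≠ 0 → ‖x‖ = 1)
    (hs : ∀ x ∈ s, ‖x‖ ≤ 1) : chart k s ≤ (ball F).toSubring :=
  locV_le _ (gring_le_ball hk hs)

end api

end TA
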