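import Pool.Agent.Lib.TA.ChF

/-!
# Module TA.Emb: embedded local uniformization from the data

PROOF of `ta_emb2`.  Unfold `Imp.EMB2`; let `Sf` be the given finite set.  For `t ∈ gens ∪ {y, th}` choose
`α t, β t ∈ A0`, `β t ≠ 0`, `t * β t = α t` (`hfrac`).  Let
`Z = {1} ∪ Sf ∪ {β t : t ∈ gens ∪ {y, th}} ∪ (S without 0)`, a finite set of nonzero elements, and take
`u', Y, s` from `chart_F`, `A = chart k (gens ∪ range u' ∪ {Y} ∪ {s})`.  An element `x ∈ Z` with `‖x‖ ≤ 1` is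
`MonV` in `A` (`x = x / 1`), so in `A`.
`g := gens ∪ univ.image u' ∪ {Y} ∪ {s}` (finset; classical decidable equality), `gs := {Y}`.
(a) `t ∈ g → t ∈ ball F`: `t ∈ A ≤ ball`.
(b) `A0 ≤ A`: `A0 ≤ chart k S ≤ A` by `chart_le` (`k ⊆ A`; `x ∈ S` is zero or an element of `Z` with
    `‖x‖ ≤ 1`, since `S ⊆ A0 ≤ ball`; `loc`).
(c) `locV (ball F) (closure (A0 ∪ g)) = A`: `≤`: `closure (A0 ∪ g) ≤ A` and `loc`; `≥`: `chart_le` with
    `k ⊆ A0` and the generators in `g`, `locV_locV`.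
(d) `GoodPar2 (ball F) A0 A u' {Y}`: `ind` `E2_IndV`, `lt`, `glt` `E2_lt_iff`, `gen`, `reg`, `dim` from `Par`.
    `den`: `closure (A0 ∪ g) ≤ denRing (ball F) A0 A u'`: elements of `A0` `Den.of_mem`; `t ∈ gens ∪ {y, th}`:
    `Den.div (Den.of_mem (α t)) (Den.of_mem (β t)) (MonV (β t)) (t * β t = α t)` (`‖β t‖ ≤ 1`); so
    `gring k (gens ∪ {y} ∪ {th}) ≤ denRing`; and for `t ∈ range u' ∪ {Y} ∪ {s}`: there is `D` in this ring,
    `MonV D`, `D * t` in this ring, `Den.div (Den (D * t)) (Den D) (MonV D) (t * D = D * t)`.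
    Then `locV_le_denRing`.
(e) `f ∈ Sf`: `f ∈ Z`, `‖f‖ ≤ 1`.
Compare the proof of `E3_emb` (AbhE3.lean), which has the same structure.
-/

open IsLocalRing Polynomial

namespace TA
open Pool.Agent.Lib.MP_3029eb_ag Pool.Agent.Lib.MP_3029eb_ag.Abh

variable {F : Type} [NormedField F] [IsUltrametricDist F] {k L : Subfield F} {gens : Finset F}
  {r : ℕ} {w : Fin r → F} {y th : F}

theorem ta_emb2 (D : TAData k gens w L y th) (hy : ‖y‖ ≤ 1) {A0 : Subring F}
    (hk : (k : Set F) ⊆ A0) (hA0 : A0 ≤ (ball F).toSubring) (S : Finset F)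
    (hS : (S : Set F) ⊆ A0) (hA0S : A0 ≤ chart k (S : Set F))
    (hfrac : ∀ z : F, ∃ a ∈ A0, ∃ b ∈ A0, b ≠ 0 ∧ z * b = a) :
    Imp.EMB2 (ball F) A0 r 1 := by
  classical
  intro Sf hSf
  choose α hα β hβ hβ0 hαβ using hfrac
  let T : Finset F := gens ∪ {y} ∪ {th}
  let Z : Finset F := ({1} ∪ Sf) ∪ (T.image β ∪ S.filter (fun x => x ≠ 0))
  have hZ : ∀ z ∈ Z, z ≠ 0 := by
    intro z hz
    rcases Finset.mem_union.1 hz with hz | hz
    · rcases Finset.mem_union.1 hz with hz | hz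
      · rw [Finset.mem_singleton.1 hz]; exact one_ne_zero
      · exact (hSf z hz).1
    · rcases Finset.mem_union.1 hz with hz | hz
      · obtain ⟨t, _, rfl⟩ := Finset.mem_image.1 hz
        exact hβ0 t
      · exact (Finset.mem_filter.1 hz).2
  have hone : (1 : F) ∈ Z :=
    Finset.mem_union_left _ (Finset.mem_union_left _ (Finset.mem_singleton_self _))
  have hSfZ : ∀ f ∈ Sf, f ∈ Z := fun f hf =>
    Finset.mem_union_left _ (Finset.mem_union_right _ hf)
  have hTZ : ∀ t ∈ T, β t ∈ Z := fun t ht =>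
    Finset.mem_union_right _ (Finset.mem_union_left _ (Finset.mem_image_of_mem _ ht))
  have hSZ : ∀ x ∈ S, x ≠ 0 → x ∈ Z := fun x hx h0 =>
    Finset.mem_union_right _ (Finset.mem_union_right _ (Finset.mem_filter.2 ⟨hx, h0⟩))
  obtain ⟨u', Y, s, hPar, hDen, hMon⟩ := chart_F D hy Z hZ
  obtain ⟨X, hX⟩ : ∃ X : Set F, X = (gens : Set F) ∪ Set.range u' ∪ {Y} ∪ {s} := ⟨_, rfl⟩
  rw [← hX] at hPar hDen hMon
  obtain ⟨A, hA⟩ : ∃ A : Subring F, A = chart k X := ⟨_, rfl⟩
  rw [← hA] at hPar hDen hMon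
  have hm1 : ∀ z ∈ Z, ‖z‖ ≤ 1 → MonV (ball F) A u' z := by
    intro z hz h1
    have h2 := hMon z hz 1 hone (by rw [norm_one]; exact h1)
    rwa [div_one] at h2
  have hmem1 : ∀ z ∈ Z, ‖z‖ ≤ 1 → z ∈ A := fun z hz h1 => (hm1 z hz h1).mem hPar.mem
  have hkA : (k : Set F) ⊆ A := by
    rw [hA]
    exact fun x hx => gring_le_chart _ _ (le_gring _ _ hx)
  have hXA : X ⊆ A := by
    rw [hA]
    exact fun x hx => gring_le_chart _ _ (subset_gring _ _ hx)
  have hA0A : A0 ≤ A := by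
    refine hA0S.trans (chart_le hkA ?_ hPar.loc)
    intro x hx
    by_cases h0 : x = 0
    · rw [h0]; exact A.zero_mem
    · exact hmem1 x (hSZ x (Finset.mem_coe.1 hx) h0) (hA0 (hS hx))
  let g : Finset F := gens ∪ Finset.univ.image u' ∪ {Y} ∪ {s}
  have hgX : (g : Set F) = X := by
    rw [hX]
    simp only [g, Finset.coe_union, Finset.coe_image, Finset.coe_univ, Set.image_univ,
      Finset.coe_singleton]
  have hset : locV (ball F) (Subring.closure ((A0 : Set F) ∪ (g : Set F))) = A := by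
    rw [hgX]
    apply le_antisymm
    · rw [← hPar.loc]
      apply locV_mono
      rw [Subring.closure_le, Set.union_subset_iff]
      exact ⟨hA0A, hXA⟩
    · rw [hA]
      apply chart_le
      · exact fun x hx => le_locV _ _ (Subring.subset_closure (Or.inl (hk hx)))
      · exact fun x hx => le_locV _ _ (Subring.subset_closure (Or.inr hx))
      · exact locV_locV _ _
  refine ⟨g, u', {Y}, ?_, Finset.card_singleton _, ?_, ?_⟩
  · intro t ht
    have h1 : t ∈ X := by
      rw [← hgX]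
      exact Finset.mem_coe.2 ht
    exact hPar.le (hXA h1)
  · rw [hset]
    refine ⟨E2_IndV hPar.ind, hPar.mem, fun i => (E2_lt_iff _).2 (hPar.ind.lt i), hPar.gmem,
      fun z hz => (E2_lt_iff _).2 (hPar.glt z hz),
      fun z hz hz1 => hPar.gen z hz ((E2_lt_iff z).1 hz1), hPar.reg, hPar.dim, ?_⟩
    have h1 : gring k ((gens : Set F) ∪ {y} ∪ {th}) ≤ denRing (ball F) A0 A u' := by
      rw [gring_le_iff]
      refine ⟨fun x hx => Den.of_mem (hk hx), fun t ht => ?_⟩
      have htT : t ∈ T := by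
        simp only [T, Finset.mem_union, Finset.mem_singleton]
        exact ht
      exact Den.div (Den.of_mem (hα t)) (Den.of_mem (hβ t)) (hm1 _ (hTZ t htT) (hA0 (hβ t)))
        (hαβ t)
    have h2 : Subring.closure ((A0 : Set F) ∪ (g : Set F)) ≤ denRing (ball F) A0 A u' := by
      rw [Subring.closure_le, hgX]
      rintro x (hx | hx)
      · exact Den.of_mem hx
      · rw [hX] at hx
        rcases hx with ((hx | hx) | hx) | hx
        · exact h1 (subset_gring _ _ (Or.inl (Or.inl hx)))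
        · obtain ⟨D', hD', hDm, hDx⟩ := hDen x (Or.inl (Or.inl hx))
          exact Den.div (h1 hDx) (h1 hD') hDm (mul_comm _ _)
        · obtain ⟨D', hD', hDm, hDx⟩ := hDen x (Or.inl (Or.inr hx))
          exact Den.div (h1 hDx) (h1 hD') hDm (mul_comm _ _)
        · obtain ⟨D', hD', hDm, hDx⟩ := hDen x (Or.inr hx)
          exact Den.div (h1 hDx) (h1 hD') hDm (mul_comm _ _)
    have h3 : Subring.closure ((A0 : Set F) ∪ (g : Set F)) ≤ A := by
      rw [← hset]
      exact le_locV _ _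
    have h4 := locV_le_denRing h2 h3
    rw [hset] at h4
    exact fun z hz => h4 hz
  · rw [hset]
    intro f hf
    exact hm1 f (hSfZ f hf) (hSf f hf).2.1

end TA
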