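import Pool.Agent.Lib.TA.Poly0

/-!
# Module TA.LocM: the evaluation at a point of norm less than one

`A` is a subring of the unit ball with `locV (ball F) A = A` (so `A` is local, `isLocalRing_of_loc`,
`mem_max_iff`), `y` an element of `F` with `‖y‖ < 1`.

PROOF of `exists_locMap`.  For `f` in `A[X]` write `f = C (f.coeff 0) + X * g` (`divX`), so
`f(y) = f.coeff 0 + y * g(y)` with `‖g(y)‖ ≤ 1`.  Hence if `f ∉ Q0 A`, that is
`‖f.coeff 0‖ = 1`, we get `‖f(y)‖ = 1`, in particular `f(y) ≠ 0` and it is a unit of `F`.  So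
`IsLocalization.lift` gives `φ`, with `φ (f / q) = f(y) / q(y)`.
RANGE: `Subring.closure (A ∪ {y})` is the set of all `f(y)`, `f` in `A[X]`.
-/

open IsLocalRing Polynomial

namespace TA
open Pool.Agent.Lib.MP_3029eb_ag Pool.Agent.Lib.MP_3029eb_ag.Abh

variable {F : Type} [NormedField F] [IsUltrametricDist F] {A : Subring F}

omit [IsUltrametricDist F] in
theorem mem_closure_adj_iff (A : Subring F) (y z : F) :
    z ∈ Subring.closure ((A : Set F) ∪ {y}) ↔ ∃ f : A[X], f.eval₂ A.subtype y = z := by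
  constructor
  · intro hz
    have hle : Subring.closure ((A : Set F) ∪ {y}) ≤ (eval₂RingHom A.subtype y).range := by
      rw [Subring.closure_le, Set.union_subset_iff]
      constructor
      · intro a ha
        exact ⟨C ⟨a, ha⟩, by simp⟩
      · intro a ha
        rw [Set.mem_singleton_iff] at ha
        subst ha
        exact ⟨X, by simp⟩
    obtain ⟨f, hf⟩ := hle hz
    exact ⟨f, hf⟩
  · rintro ⟨f, rfl⟩
    rw [eval₂_eq_sum_range]
    refine Subring.sum_mem _ fun i _ => Subring.mul_mem _ ?_ (Subring.pow_mem _ ?_ _)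
    · exact Subring.subset_closure (Or.inl (f.coeff i).2)
    · exact Subring.subset_closure (Or.inr rfl)

theorem closure_adj_le_ball (hle : A ≤ (ball F).toSubring) {y : F} (hy : ‖y‖ < 1) :
    Subring.closure ((A : Set F) ∪ {y}) ≤ (ball F).toSubring := by
  rw [Subring.closure_le, Set.union_subset_iff]
  refine ⟨hle, ?_⟩
  intro a ha
  rw [Set.mem_singleton_iff] at ha
  subst ha
  exact hy.le

/-- `f(y)` is congruent to the constant coefficient. -/
theorem exists_eval_eq (hle : A ≤ (ball F).toSubring) {y : F} (hy : ‖y‖ < 1) (f : A[X]) :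
    ∃ g : F, ‖g‖ ≤ 1 ∧ g ∈ Subring.closure ((A : Set F) ∪ {y}) ∧
      f.eval₂ A.subtype y = (f.coeff 0 : F) + y * g := by
  have hmem : f.divX.eval₂ A.subtype y ∈ Subring.closure ((A : Set F) ∪ {y}) :=
    (mem_closure_adj_iff A y _).2 ⟨_, rfl⟩
  refine ⟨f.divX.eval₂ A.subtype y, closure_adj_le_ball hle hy hmem, hmem, ?_⟩
  conv_lhs => rw [← f.divX_mul_X_add]
  rw [eval₂_add, eval₂_mul, eval₂_X, eval₂_C, Subring.subtype_apply]
  ring

/-- The norm of `f(y)` is one if and only if the constant coefficient has norm one. -/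
theorem locMap_norm (hle : A ≤ (ball F).toSubring) {y : F} (hy : ‖y‖ < 1) (f : A[X]) :
    ‖f.eval₂ A.subtype y‖ = 1 ↔ ‖(f.coeff 0 : F)‖ = 1 := by
  obtain ⟨g, hg, -, h⟩ := exists_eval_eq hle hy f
  have hyg : ‖y * g‖ < 1 := by
    rw [norm_mul]
    calc ‖y‖ * ‖g‖ ≤ ‖y‖ * 1 := mul_le_mul_of_nonneg_left hg (norm_nonneg _)
      _ < 1 := by rw [mul_one]; exact hy
  have hc : ‖(f.coeff 0 : F)‖ ≤ 1 := hle (f.coeff 0).2
  rw [h]
  constructor
  · intro h1
    by_contra hne
    have hlt : ‖(f.coeff 0 : F)‖ < 1 := lt_of_le_of_ne hc hne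
    have := IsUltrametricDist.norm_add_le_max (f.coeff 0 : F) (y * g)
    rw [h1] at this
    exact absurd this (not_le.2 (max_lt hlt hyg))
  · intro h1
    rw [IsUltrametricDist.norm_add_eq_max_of_norm_ne_norm (by rw [h1]; exact hyg.ne'), h1,
      max_eq_left hyg.le]

theorem notMem_Q0_iff [IsLocalRing A] (hle : A ≤ (ball F).toSubring)
    (hloc : locV (ball F) A = A) (f : A[X]) : f ∉ Q0 A ↔ ‖(f.coeff 0 : F)‖ = 1 := by
  rw [mem_Q0, mem_max_iff hle hloc, not_lt]
  exact ⟨fun h => le_antisymm (hle (f.coeff 0).2) h, fun h => h.ge⟩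

theorem exists_locMap (A : Subring F) [IsLocalRing A] (hle : A ≤ (ball F).toSubring)
    (hloc : locV (ball F) A = A) {y : F} (hy : ‖y‖ < 1) :
    ∃ φ : Localization.AtPrime (Q0 A) →+* F,
      (∀ f : A[X], φ (algebraMap A[X] (Localization.AtPrime (Q0 A)) f) = f.eval₂ A.subtype y) ∧
      φ.range = locV (ball F) (Subring.closure ((A : Set F) ∪ {y})) := by
  have hunit : ∀ q : (Q0 A).primeCompl, IsUnit ((eval₂RingHom A.subtype y) (q : A[X])) := by
    intro q
    have h1 : ‖(q : A[X]).eval₂ A.subtype y‖ = 1 :=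
      (locMap_norm hle hy _).2 ((notMem_Q0_iff hle hloc _).1 q.2)
    rw [isUnit_iff_ne_zero, coe_eval₂RingHom]
    intro h0
    rw [h0, norm_zero] at h1
    exact zero_ne_one h1
  set φ : Localization.AtPrime (Q0 A) →+* F :=
    IsLocalization.lift (M := (Q0 A).primeCompl) (S := Localization.AtPrime (Q0 A))
      (g := eval₂RingHom A.subtype y) hunit with hφ
  have hφ1 : ∀ f : A[X], φ (algebraMap A[X] (Localization.AtPrime (Q0 A)) f) =
      f.eval₂ A.subtype y := by
    intro f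
    rw [hφ, IsLocalization.lift_eq, coe_eval₂RingHom]
  refine ⟨φ, hφ1, ?_⟩
  ext z
  constructor
  · rintro ⟨x, rfl⟩
    obtain ⟨⟨f, q⟩, hx⟩ := IsLocalization.surj (M := (Q0 A).primeCompl) x
    have h1 : ‖(q : A[X]).eval₂ A.subtype y‖ = 1 :=
      (locMap_norm hle hy _).2 ((notMem_Q0_iff hle hloc _).1 q.2)
    refine ⟨f.eval₂ A.subtype y, (mem_closure_adj_iff A y _).2 ⟨_, rfl⟩,
      (q : A[X]).eval₂ A.subtype y, (mem_closure_adj_iff A y _).2 ⟨_, rfl⟩,
      (val_eq_one_iff _).2 h1, ?_⟩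
    rw [← hφ1, ← hφ1, ← map_mul, hx]
  · rintro ⟨a, ha, b, hb, hb1, hz⟩
    obtain ⟨f, rfl⟩ := (mem_closure_adj_iff A y _).1 ha
    obtain ⟨q, rfl⟩ := (mem_closure_adj_iff A y _).1 hb
    have h1 := (val_eq_one_iff _).1 hb1
    have hq : q ∉ Q0 A := (notMem_Q0_iff hle hloc _).2 ((locMap_norm hle hy _).1 h1)
    refine ⟨IsLocalization.mk' (M := (Q0 A).primeCompl) (Localization.AtPrime (Q0 A)) f ⟨q, hq⟩, ?_⟩
    rw [hφ, IsLocalization.lift_mk'_spec]
    simp only [coe_eval₂RingHom]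
    rw [mul_comm]
    exact hz.symm

end TA
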