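import Pool.Agent.Lib.TA.Defs

/-!
# Module TA.Poly0: localization of a polynomial ring at (m, X)

Let `A` be a local ring with maximal ideal `m` and `Q0 A` the ideal of all `f` in `A[X]` with
`f.coeff 0 ∈ m` (a prime ideal, the preimage of `m` under the ring homomorphism `constantCoeff`, or
`evalRingHom 0`).

PROOFS.
* `mem_Q0`: unfold.  Prime: `Ideal.comap_isPrime` (instance).
* `regular_Q0`: `Polynomial.isRegularLocalRing_localization_atPrime_of_comap_eq_maximalIdeal` with
  `(Q0 A).comap C = maximalIdeal A` (`ext`, `mem_Q0`, `coeff_C_zero`).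
* `dim_Q0`: `ringKrullDim S = height (Q0 A)` for `S = Localization.AtPrime (Q0 A)`
  (`IsLocalization.AtPrime.ringKrullDim_eq_height`), and `dim A = height m`
  (`maximalIdeal_height_eq_ringKrullDim`).
  LOWER BOUND: `m.map C ≤ Q0 A`, not equal (`X ∈ Q0 A`, and `X ∉ m.map C` since `1 ∉ m`,
  `Ideal.mem_map_C_iff`), `height (m.map C) = height m` (`height_map_C`), and
  `Ideal.height_add_one_le_of_lt_of_isPrime` (`m.map C` is prime: `Ideal.isPrime_map_C_iff_isPrime`;
  compare the proof of the Mathlib theorem cited in `regular_Q0`, file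
  Mathlib/RingTheory/RegularLocalRing/Polynomial.lean).
  UPPER BOUND: with `n = spanFinrank m = dim A` generators of `m` (`A` regular), the maximal ideal of
  `S` is generated by the images of the `C` of these generators and of `X` (`f = C (f.coeff 0) + X * g`,
  `Polynomial.divX_mul_X_add`), that is by `n + 1` elements; `ringKrullDim_le_spanFinrank_maximalIdeal`,
  `Submodule.spanFinrank_span_le_ncard_of_finite`.
* `notMem_sq`: if `algebraMap G` lies in `(maximalIdeal S) ^ 2 = ((Q0 A) ^ 2).map (algebraMap _ S)`, there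
  is `q ∉ Q0 A` with `q * G ∈ (Q0 A) ^ 2` (`IsLocalization.mem_map_algebraMap_iff`).  Every element `f` of
  `(Q0 A) ^ 2` has `f.coeff 1 ∈ m`: for products `a * b` with `a, b ∈ Q0 A` we have
  `(a * b).coeff 1 = a.coeff 0 * b.coeff 1 + a.coeff 1 * b.coeff 0` (`Polynomial.mul_coeff_one`), and sums
  are clear (`Submodule.mul_induction_on` or `Ideal.mul_le` applied to the set of such `f`...; use
  induction on the membership `f ∈ Q0 A * Q0 A`).  But
  `(q * G).coeff 1 = q.coeff 0 * G.coeff 1 + q.coeff 1 * G.coeff 0` is a unit plus an element of `m`.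
-/

open IsLocalRing Polynomial

namespace TA
open Pool.Agent.Lib.MP_3029eb_ag Pool.Agent.Lib.MP_3029eb_ag.Abh

/-- the polynomials with constant coefficient in the maximal ideal -/
noncomputable def Q0 (A : Type) [CommRing A] [IsLocalRing A] : Ideal A[X] :=
  (maximalIdeal A).comap (constantCoeff : A[X] →+* A)

variable {A : Type} [CommRing A]

theorem mem_Q0 [IsLocalRing A] {f : A[X]} : f ∈ Q0 A ↔ f.coeff 0 ∈ maximalIdeal A := Iff.rfl

instance isPrime_Q0 [IsLocalRing A] : (Q0 A).IsPrime := by
  unfold Q0
  exact Ideal.comap_isPrime _ _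

theorem regular_Q0 [IsRegularLocalRing A] :
    IsRegularLocalRing (Localization.AtPrime (Q0 A)) := by
  refine Polynomial.isRegularLocalRing_localization_atPrime_of_comap_eq_maximalIdeal A (Q0 A) ?_
  ext a
  rw [Ideal.mem_comap, mem_Q0, coeff_C_zero]

private theorem poly0_X_mem [IsLocalRing A] : (X : A[X]) ∈ Q0 A := by
  rw [mem_Q0, coeff_X_zero]
  exact zero_mem _

private theorem poly0_map_le [IsLocalRing A] : (maximalIdeal A).map C ≤ Q0 A := by
  rw [Ideal.map_le_iff_le_comap]
  intro a ha
  rw [Ideal.mem_comap, mem_Q0, coeff_C_zero]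
  exact ha

private theorem poly0_eq [IsLocalRing A] :
    Q0 A = (maximalIdeal A).map C ⊔ Ideal.span {X} := by
  refine le_antisymm ?_ (sup_le poly0_map_le ?_)
  · intro f hf
    rw [mem_Q0] at hf
    rw [← Polynomial.divX_mul_X_add f]
    refine add_mem ?_ ?_
    · exact Ideal.mem_sup_right (Ideal.mul_mem_left _ _ (Ideal.subset_span rfl))
    · exact Ideal.mem_sup_left (Ideal.mem_map_of_mem C hf)
  · rw [Ideal.span_singleton_le_iff_mem]
    exact poly0_X_mem

theorem dim_Q0 [IsRegularLocalRing A] :
    ringKrullDim (Localization.AtPrime (Q0 A)) = ringKrullDim A + 1 := by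
  have reg := (isRegularLocalRing_iff A).mp ‹_›
  have fg' := (maximalIdeal A).fg_of_isNoetherianRing
  have fg := Submodule.FG.finite_generators fg'
  refine le_antisymm ?_ ?_
  · refine (ringKrullDim_le_spanFinrank_maximalIdeal _).trans ?_
    rw [← reg, ← Nat.cast_one, ← Nat.cast_add, Nat.cast_le]
    have peq : Q0 A = Ideal.span ((C '' (maximalIdeal A).generators) ∪ {X}) := by
      rw [Ideal.span_union, ← Ideal.map_span, poly0_eq]
      congr 2
      exact ((maximalIdeal A).span_generators).symm
    have hmax : maximalIdeal (Localization.AtPrime (Q0 A)) = Ideal.span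
        ((algebraMap A[X] (Localization.AtPrime (Q0 A))) ''
          ((C '' (maximalIdeal A).generators) ∪ {X})) := by
      rw [← Localization.AtPrime.map_eq_maximalIdeal, ← Ideal.map_span]
      exact congrArg (Ideal.map (algebraMap A[X] (Localization.AtPrime (Q0 A)))) peq
    rw [hmax]
    have fin : ((C '' (maximalIdeal A).generators) ∪ {X} : Set A[X]).Finite :=
      (fg.image C).union (Set.finite_singleton X)
    refine (Submodule.spanFinrank_span_le_ncard_of_finite (fin.image _)).trans ?_
    refine (Set.ncard_image_le fin).trans ((Set.ncard_union_le _ _).trans ?_)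
    rw [Set.ncard_singleton, add_le_add_iff_right, ← Submodule.FG.generators_ncard fg']
    exact Set.ncard_image_le fg
  · haveI hmp : ((maximalIdeal A).map (C : A →+* A[X])).IsPrime :=
      Ideal.isPrime_map_C_iff_isPrime _ |>.2 inferInstance
    have lt : (maximalIdeal A).map C < Q0 A := by
      refine lt_of_le_of_ne poly0_map_le fun h => ?_
      have hX : (X : A[X]) ∈ (maximalIdeal A).map C := by
        rw [h]
        exact poly0_X_mem
      have h1 := (Ideal.mem_map_C_iff.1 hX) 1
      rw [coeff_X_one] at h1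
      exact (maximalIdeal.isMaximal A).ne_top ((Ideal.eq_top_iff_one _).2 h1)
    have h1 := Ideal.height_add_one_le_of_lt_of_isPrime lt
    rw [height_map_C] at h1
    rw [IsLocalization.AtPrime.ringKrullDim_eq_height (Q0 A) (Localization.AtPrime (Q0 A)),
      ← maximalIdeal_height_eq_ringKrullDim]
    exact_mod_cast h1

theorem notMem_sq [IsLocalRing A] {G : A[X]} (h0 : G.coeff 0 ∈ maximalIdeal A)
    (h1 : IsUnit (G.coeff 1)) :
    algebraMap A[X] (Localization.AtPrime (Q0 A)) G ∉
      maximalIdeal (Localization.AtPrime (Q0 A)) ^ 2 := by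
  intro hG
  rw [← Localization.AtPrime.map_eq_maximalIdeal, ← Ideal.map_pow,
    IsLocalization.algebraMap_mem_map_algebraMap_iff (Q0 A).primeCompl] at hG
  obtain ⟨q, hq, hqG⟩ := hG
  have key : ∀ f ∈ (Q0 A) ^ 2, f.coeff 1 ∈ maximalIdeal A := by
    intro f hf
    rw [pow_two] at hf
    refine Submodule.mul_induction_on hf ?_ ?_
    · intro a ha b hb
      rw [mul_coeff_one]
      exact add_mem (Ideal.mul_mem_right _ _ (mem_Q0.1 ha)) (Ideal.mul_mem_left _ _ (mem_Q0.1 hb))
    · intro a b ha hb
      rw [coeff_add]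
      exact add_mem ha hb
  have h2 := key _ hqG
  rw [mul_coeff_one] at h2
  have h3 : q.coeff 0 * G.coeff 1 ∈ maximalIdeal A := by
    have h4 : q.coeff 1 * G.coeff 0 ∈ maximalIdeal A := Ideal.mul_mem_left _ _ h0
    have h5 := sub_mem h2 h4
    rwa [add_sub_cancel_right] at h5
  rcases (maximalIdeal.isMaximal A).isPrime.mem_or_mem h3 with h4 | h4
  · exact hq (mem_Q0.2 h4)
  · exact (mem_maximalIdeal _).1 h4 h1

end TA
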