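import Pool.Agent.Lib.TA.Defs
import Pool.Agent.Lib.MP_3029eb_ag.AbhAll

/-!
# Module TA.Reg: regularity from generators with independent values; noetherian charts

PROOFS.
* `noeth_chart`: the field `k` is a noetherian ring (as subring: `k.toSubring`, a field), `gring k s` is
  `Subring.closure (k.toSubring ∪ s)` (the coercions to sets agree, `rfl`), so it is noetherian by
  `isNoetherianRing_closure` (Comp1), and `chart k s = locV (ball F) (gring k s)` by
  `isNoetherianRing_locV` (Comp1).
* `par_of_gen`: `A` is local (`isLocalRing_of_loc`), `mem_max_iff`.  The maximal ideal of `A` is the span of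
  the `r` elements `⟨u i, hmem i⟩` (`hgen` for `≤`, `hu.lt` for `≥`), so its `spanFinrank` is `≤ r`
  (`Submodule.spanFinrank_span_le_ncard_of_finite`, `Set.ncard_range_le` or via `Finset`).
  `ineq (ball F) A hle hloc u (E2_IndV hu) (fun i => ⟨u i, hmem i, 1, …⟩)` (AbhAll) gives
  `r ≤ ringKrullDim A`.  So `IsRegularLocalRing.of_spanFinrank_maximalIdeal_le`, and
  `ringKrullDim A ≤ spanFinrank ≤ r` (`ringKrullDim_le_spanFinrank_maximalIdeal`) gives `dim`.  Compare the
  proof in AbhE12 or AbhMain.
-/

open IsLocalRing Polynomial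

namespace TA
open Pool.Agent.Lib.MP_3029eb_ag Pool.Agent.Lib.MP_3029eb_ag.Abh

variable {F : Type} [NormedField F] [IsUltrametricDist F]

theorem noeth_gring (k : Subfield F) (s : Finset F) : IsNoetherianRing (gring k (s : Set F)) := by
  have h0 : IsNoetherianRing k.toSubring := inferInstanceAs (IsNoetherianRing k)
  exact isNoetherianRing_closure (A := k.toSubring) s

theorem noeth_chart (k : Subfield F) (s : Finset F) : IsNoetherianRing (chart k (s : Set F)) := by
  have h0 := noeth_gring k s
  exact isNoetherianRing_locV (ball F) (A := gring k (s : Set F))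

theorem par_of_gen {A : Subring F} [IsNoetherianRing A] (hle : A ≤ (ball F).toSubring)
    (hloc : locV (ball F) A = A) {r : ℕ} {u : Fin r → F} (hu : Indep u) (hmem : ∀ i, u i ∈ A)
    (hgen : ∀ z ∈ A, ‖z‖ < 1 → ∃ c : Fin r → F, (∀ i, c i ∈ A) ∧ z = ∑ i, c i * u i) :
    Par A u ∅ := by
  have hL : IsLocalRing A := isLocalRing_of_loc hle hloc
  let v : Fin r → A := fun i => ⟨u i, hmem i⟩
  have hmaxB : maximalIdeal A = Ideal.span (Set.range v) := by
    apply le_antisymm
    · intro z hz
      have hz1 : ‖(z : F)‖ < 1 := (mem_max_iff hle hloc z).1 hz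
      obtain ⟨c, hc, hs⟩ := hgen z z.2 hz1
      rw [Ideal.mem_span_range_iff_exists_fun]
      refine ⟨fun i => ⟨c i, hc i⟩, ?_⟩
      apply Subtype.ext
      rw [AddSubmonoidClass.coe_finsetSum, hs]
      rfl
    · rw [Ideal.span_le]
      rintro _ ⟨i, rfl⟩
      rw [SetLike.mem_coe, mem_max_iff hle hloc]
      exact hu.lt i
  have hdim1 : (r : WithBot ℕ∞) ≤ ringKrullDim A := by
    refine ineq (ball F) A hle hloc u (E2_IndV hu) fun i => ?_
    exact ⟨u i, hmem i, 1, one_mem _, one_ne_zero, mul_one _⟩
  have hfr : (maximalIdeal A).spanFinrank ≤ r := by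
    rw [hmaxB]
    have h1 : (Ideal.span (Set.range v) : Ideal A).spanFinrank ≤ (Set.range v).ncard :=
      Submodule.spanFinrank_span_le_ncard_of_finite (Set.finite_range v)
    have h2 : (Set.range v).ncard ≤ r := by
      have := Set.ncard_image_le (f := v) (s := Set.univ) Set.finite_univ
      rwa [Set.image_univ, Set.ncard_univ, Nat.card_eq_fintype_card, Fintype.card_fin] at this
    exact h1.trans h2
  have hfr' : ((maximalIdeal A).spanFinrank : WithBot ℕ∞) ≤ r := by exact_mod_cast hfr
  have hreg : IsRegularLocalRing A :=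
    IsRegularLocalRing.of_spanFinrank_maximalIdeal_le A (hfr'.trans hdim1)
  have hdim : ringKrullDim A = r :=
    le_antisymm ((ringKrullDim_le_spanFinrank_maximalIdeal A).trans hfr') hdim1
  refine ⟨hle, hloc, hu, hmem, ?_, ?_, ?_, hreg, ?_⟩
  · intro y hy
    exact absurd hy (Finset.notMem_empty y)
  · intro y hy
    exact absurd hy (Finset.notMem_empty y)
  · intro z hz hz1
    obtain ⟨c, hc, hs⟩ := hgen z hz hz1
    refine ⟨c, fun _ => 0, hc, fun _ => A.zero_mem, ?_⟩
    rw [Finset.sum_empty, add_zero]
    exact hs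
  · rw [hdim, Finset.card_empty, zero_add]
    rfl

end TA
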